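import Pool.Agent.FleaC.Gcd

/-!
# Translations, integer coordinates, boxes
-/

set_option autoImplicit false

namespace Pool.Agent.FleaC

open Primrec

theorem dist2_add (P Q v : GaussianInt) : dist2 (P + v) (Q + v) = dist2 P Q := by
  unfold dist2
  rw [Zsqrtd.re_add, Zsqrtd.re_add, Zsqrtd.im_add, Zsqrtd.im_add, add_sub_add_right_eq_sub,
    add_sub_add_right_eq_sub]

theorem area2_add (P Q T v : GaussianInt) : area2 (P + v) (Q + v) (T + v) = area2 P Q T := by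
  unfold area2
  simp only [Zsqrtd.re_add, Zsqrtd.im_add, add_sub_add_right_eq_sub]

theorem distinct_add (A B C v : GaussianInt) :
    Distinct (A + v) (B + v) (C + v) ↔ Distinct A B C := by
  unfold Distinct
  simp only [ne_eq, add_left_inj]

theorem occurs_add {A B C : GaussianInt} (v : GaussianInt) (hd : Distinct A B C) (D : ℕ) :
    Occurs (A + v) (B + v) (C + v) D ↔ Occurs A B C D := by
  rw [occurs_iff_code hd, occurs_iff_code ((distinct_add A B C v).2 hd)]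
  unfold len sides tr
  simp only [dist2_add, area2_add]

theorem primitive_add (A B C v : GaussianInt) :
    Primitive (A + v) (B + v) (C + v) ↔ Primitive A B C := by
  rw [primitive_iff', primitive_iff']
  simp only [add_sub_add_right_eq_sub]

theorem missed_add {A B C : GaussianInt} (v : GaussianInt) (hd : Distinct A B C) (D : ℕ) :
    Missed (A + v) (B + v) (C + v) D ↔ Missed A B C D := by
  unfold Missed
  rw [occurs_add v hd]

theorem adm_add (deg : Bool) (A B C v : GaussianInt) :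
    Adm deg (A + v) (B + v) (C + v) ↔ Adm deg A B C := by
  unfold Adm
  rw [distinct_add, primitive_add, area2_add]

theorem sidesLe_add (N : ℕ) (A B C v : GaussianInt) :
    SidesLe N (A + v) (B + v) (C + v) ↔ SidesLe N A B C := by
  unfold SidesLe
  simp only [dist2_add]

/-! ### integer coordinates -/

theorem enc_int (z : ℤ) : Encodable.encode z = if 0 ≤ z then 2 * z.toNat else 2 * (-z).toNat - 1 := by
  rcases z with n | n
  · have : Encodable.encode (Int.ofNat n) = 2 * n := rfl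
    have h0 : (0 : ℤ) ≤ Int.ofNat n := Int.natCast_nonneg n
    rw [this, if_pos h0]
    rfl
  · have : Encodable.encode (Int.negSucc n) = 2 * n + 1 := rfl
    rw [this, if_neg (by simp)]
    have : (-(Int.negSucc n)).toNat = n + 1 := rfl
    rw [this]
    omega

theorem pr_toNat : Primrec Int.toNat := by
  have he : Primrec (fun z : ℤ => Encodable.encode z) := Primrec.encode
  refine (Primrec.ite (Primrec.eq.comp (nat_mod.comp he (Primrec.const 2)) (Primrec.const 0))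
    (nat_div.comp he (Primrec.const 2)) (Primrec.const 0)).of_eq ?_
  intro z
  rw [enc_int]
  split_ifs <;> omega

theorem pr_negNat : Primrec (fun z : ℤ => (-z).toNat) := by
  have he : Primrec (fun z : ℤ => Encodable.encode z) := Primrec.encode
  refine (Primrec.ite (Primrec.eq.comp (nat_mod.comp he (Primrec.const 2)) (Primrec.const 0))
    (Primrec.const 0) (nat_add.comp (nat_div.comp he (Primrec.const 2)) (Primrec.const 1))).of_eq ?_
  intro z
  rw [enc_int]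
  split_ifs <;> omega

/-- a bound for the absolute values of the negative coordinates -/
def low (p : ℤ × ℤ) : ℕ := (-p.1).toNat + (-p.2).toNat

/-- natural coordinates after a translation by `M + M i` -/
def shp (M : ℕ) (p : ℤ × ℤ) : ℕ × ℕ :=
  (p.1.toNat + (M - (-p.1).toNat), p.2.toNat + (M - (-p.2).toNat))

theorem pt_shp {M : ℕ} {p : ℤ × ℤ} (h : low p ≤ M) : pt (shp M p) = pz p + ⟨M, M⟩ := by
  unfold low at h
  apply Zsqrtd.ext
  · rw [Zsqrtd.re_add]
    change ((p.1.toNat + (M - (-p.1).toNat) : ℕ) : ℤ) = p.1 + M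
    omega
  · rw [Zsqrtd.im_add]
    change ((p.2.toNat + (M - (-p.2).toNat) : ℕ) : ℤ) = p.2 + M
    omega

theorem pr_low {α : Type} [Primcodable α] {f : α → ℤ × ℤ} (hf : Primrec f) :
    Primrec fun a => low (f a) :=
  nat_add.comp (pr_negNat.comp (fst.comp hf)) (pr_negNat.comp (snd.comp hf))

theorem pr_shp {α : Type} [Primcodable α] {f : α → ℤ × ℤ} {M : α → ℕ} (hM : Primrec M)
    (hf : Primrec f) : Primrec fun a => shp (M a) (f a) :=
  (nat_add.comp (pr_toNat.comp (fst.comp hf)) (nat_sub.comp hM (pr_negNat.comp (fst.comp hf)))).pair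
    (nat_add.comp (pr_toNat.comp (snd.comp hf)) (nat_sub.comp hM (pr_negNat.comp (snd.comp hf))))

/-- Occurrence is a primitive recursive predicate. -/
theorem pr_occZ : PrimrecPred fun x : ((ℤ × ℤ) × (ℤ × ℤ) × (ℤ × ℤ)) × ℕ =>
    Distinct (pz x.1.1) (pz x.1.2.1) (pz x.1.2.2) ∧
      Occurs (pz x.1.1) (pz x.1.2.1) (pz x.1.2.2) x.2 := by
  have hA : Primrec (fun x : ((ℤ × ℤ) × (ℤ × ℤ) × (ℤ × ℤ)) × ℕ => x.1.1) := fst.comp fst
  have hB : Primrec (fun x : ((ℤ × ℤ) × (ℤ × ℤ) × (ℤ × ℤ)) × ℕ => x.1.2.1) := fst.comp (snd.comp fst)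
  have hC : Primrec (fun x : ((ℤ × ℤ) × (ℤ × ℤ) × (ℤ × ℤ)) × ℕ => x.1.2.2) := snd.comp (snd.comp fst)
  have hM : Primrec (fun x : ((ℤ × ℤ) × (ℤ × ℤ) × (ℤ × ℤ)) × ℕ =>
      low x.1.1 + low x.1.2.1 + low x.1.2.2) :=
    nat_add.comp (nat_add.comp (pr_low hA) (pr_low hB)) (pr_low hC)
  refine (pr_occ (pr_shp hM hA) (pr_shp hM hB) (pr_shp hM hC) Primrec.snd).of_eq ?_
  rintro ⟨⟨A, B, C⟩, D⟩
  simp only
  rw [pt_shp (M := low A + low B + low C) (p := A) (by omega),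
    pt_shp (M := low A + low B + low C) (p := B) (by omega),
    pt_shp (M := low A + low B + low C) (p := C) (by omega), distinct_add]
  constructor
  · rintro ⟨h1, h2⟩
    exact ⟨h1, (occurs_add _ h1 D).1 h2⟩
  · rintro ⟨h1, h2⟩
    exact ⟨h1, (occurs_add _ h1 D).2 h2⟩

/-! ### boxes -/

/-- the points with natural coordinates at most `N` -/
def box (N : ℕ) : List (ℕ × ℕ) :=
  (List.range (N + 1)).flatMap fun x => (List.range (N + 1)).map fun y => (x, y)

theorem mem_box {N : ℕ} {p : ℕ × ℕ} : p ∈ box N ↔ p.1 ≤ N ∧ p.2 ≤ N := by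
  unfold box
  simp only [List.mem_flatMap, List.mem_range, List.mem_map]
  constructor
  · rintro ⟨x, hx, y, hy, rfl⟩
    exact ⟨by omega, by omega⟩
  · rintro ⟨h1, h2⟩
    exact ⟨p.1, by omega, p.2, by omega, rfl⟩

theorem pr_box : Primrec box := by
  have h1 : Primrec (fun N : ℕ => List.range (N + 1)) :=
    list_range.comp (nat_add.comp Primrec.id (Primrec.const 1))
  have h2 : Primrec₂ (fun (N : ℕ) (x : ℕ) => (List.range (N + 1)).map fun y => (x, y)) := by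
    apply Primrec₂.mk
    exact list_map (f := fun p : ℕ × ℕ => List.range (p.1 + 1)) (g := fun (p : ℕ × ℕ) (y : ℕ) => (p.2, y))
      (h1.comp fst) (Primrec₂.mk ((snd.comp fst).pair snd))
  exact list_flatMap h1 h2

theorem sq_le_of_dist {N : ℕ} {P Q : GaussianInt} (h : dist2 P Q ≤ N ^ 2) :
    |Q.re - P.re| ≤ N ∧ |Q.im - P.im| ≤ N := by
  have h1 : ((dist2 P Q : ℕ) : ℤ) ≤ (N : ℤ) ^ 2 := by exact_mod_cast h
  rw [dist2_cast] at h1
  have hN : (0 : ℤ) ≤ N := Int.natCast_nonneg N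
  constructor
  · apply abs_le_of_sq_le_sq _ hN
    nlinarith [sq_nonneg (Q.im - P.im)]
  · apply abs_le_of_sq_le_sq _ hN
    nlinarith [sq_nonneg (Q.re - P.re)]

theorem exists_box {N : ℕ} {A B C : GaussianInt} (h : SidesLe N A B C) :
    ∃ (v : GaussianInt) (a b c : ℕ × ℕ), a ∈ box N ∧ b ∈ box N ∧ c ∈ box N ∧
      pt a = A + v ∧ pt b = B + v ∧ pt c = C + v := by
  obtain ⟨h1, h2, h3⟩ := h
  obtain ⟨a1, a2⟩ := sq_le_of_dist h1
  obtain ⟨b1, b2⟩ := sq_le_of_dist h2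
  obtain ⟨c1, c2⟩ := sq_le_of_dist h3
  rw [abs_le] at a1 a2 b1 b2 c1 c2
  set x := min A.re (min B.re C.re) with hx
  set y := min A.im (min B.im C.im) with hy
  refine ⟨⟨-x, -y⟩, ((A.re - x).toNat, (A.im - y).toNat), ((B.re - x).toNat, (B.im - y).toNat),
    ((C.re - x).toNat, (C.im - y).toNat), ?_, ?_, ?_, ?_, ?_, ?_⟩
  · rw [mem_box]
    constructor <;> simp only <;> omega
  · rw [mem_box]
    constructor <;> simp only <;> omega
  · rw [mem_box]
    constructor <;> simp only <;> omega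
  · apply Zsqrtd.ext
    · rw [Zsqrtd.re_add]
      change (((A.re - x).toNat : ℕ) : ℤ) = A.re + -x
      omega
    · rw [Zsqrtd.im_add]
      change (((A.im - y).toNat : ℕ) : ℤ) = A.im + -y
      omega
  · apply Zsqrtd.ext
    · rw [Zsqrtd.re_add]
      change (((B.re - x).toNat : ℕ) : ℤ) = B.re + -x
      omega
    · rw [Zsqrtd.im_add]
      change (((B.im - y).toNat : ℕ) : ℤ) = B.im + -y
      omega
  · apply Zsqrtd.ext
    · rw [Zsqrtd.re_add]
      change (((C.re - x).toNat : ℕ) : ℤ) = C.re + -x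
      omega
    · rw [Zsqrtd.im_add]
      change (((C.im - y).toNat : ℕ) : ℤ) = C.im + -y
      omega

/-- `D` is missed by an admissible triangle with sides at most `N` -/
def Bad (deg : Bool) (N D : ℕ) : Prop :=
  ∃ A B C : GaussianInt, Adm deg A B C ∧ SidesLe N A B C ∧ Missed A B C D

theorem bad_iff (deg : Bool) (N D : ℕ) : Bad deg N D ↔ ∃ a ∈ box N, ∃ b ∈ box N, ∃ c ∈ box N,
    Adm deg (pt a) (pt b) (pt c) ∧ SidesLe N (pt a) (pt b) (pt c) ∧
      Missed (pt a) (pt b) (pt c) D := by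
  constructor
  · rintro ⟨A, B, C, h1, h2, h3⟩
    obtain ⟨v, a, b, c, ha, hb, hc, ea, eb, ec⟩ := exists_box h2
    refine ⟨a, ha, b, hb, c, hc, ?_⟩
    rw [ea, eb, ec, adm_add, sidesLe_add, missed_add v h1.1]
    exact ⟨h1, h2, h3⟩
  · rintro ⟨a, -, b, -, c, -, h⟩
    exact ⟨pt a, pt b, pt c, h⟩

/-- the predicate for a triangle of the box -/
theorem pr_one (deg : Bool) {α : Type} [Primcodable α] {f g h : α → ℕ × ℕ} {N D : α → ℕ}
    (hf : Primrec f) (hg : Primrec g) (hh : Primrec h) (hN : Primrec N) (hD : Primrec D) :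
    PrimrecPred fun x => Adm deg (pt (f x)) (pt (g x)) (pt (h x)) ∧
      SidesLe (N x) (pt (f x)) (pt (g x)) (pt (h x)) ∧
      Missed (pt (f x)) (pt (g x)) (pt (h x)) (D x) := by
  have d1 := pr_distinct hf hg hh
  have d2 := pr_primitive hf hg hh
  have d3 : PrimrecPred (fun x => deg = true ∨ area2 (pt (f x)) (pt (g x)) (pt (h x)) ≠ 0) :=
    (PrimrecPred.or (Primrec.eq.comp (Primrec.const deg) (Primrec.const true))
      (Primrec.eq.comp (pr_area hf hg hh) (Primrec.const 0)).not)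
  have N2 := pr_pow hN (Primrec.const 2)
  have d4 : PrimrecPred (fun x => SidesLe (N x) (pt (f x)) (pt (g x)) (pt (h x))) :=
    (nat_le.comp (pr_dist hf hg) N2).and ((nat_le.comp (pr_dist hg hh) N2).and
      (nat_le.comp (pr_dist hh hf) N2))
  have d5 := (pr_occ hf hg hh hD).not
  have e1 : PrimrecPred (fun x : α × ℕ => D x.1 = 2 * x.2 ^ 2) :=
    Primrec.eq.comp (hD.comp fst) (nat_mul.comp (Primrec.const 2) (pr_pow snd (Primrec.const 2)))
  have d6 : PrimrecPred (fun x => ¬ ∃ n < D x + 1, D x = 2 * n ^ 2) :=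
    (pr_ex (f := fun x => D x + 1) (p := fun (x : α) (n : ℕ) => D x = 2 * n ^ 2)
      (nat_add.comp hD (Primrec.const 1)) e1.primrecRel).not
  refine (d1.and (d2.and (d3.and (d4.and (d5.and d6))))).of_eq ?_
  intro x
  unfold Adm Missed
  constructor
  · rintro ⟨k1, k2, k3, k4, k5, k6⟩
    refine ⟨⟨k1, k2.2, k3⟩, k4, fun h => k5 ⟨k1, h⟩, fun n hn => k6 ⟨n, ?_, hn⟩⟩
    nlinarith [Nat.le_mul_self n]
  · rintro ⟨⟨k1, k2, k3⟩, k4, k5, k6⟩
    exact ⟨k1, ⟨k1.1, k2⟩, k3, k4, fun h => k5 h.2, fun ⟨n, _, hn⟩ => k6 n hn⟩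

theorem pr_bad (deg : Bool) : PrimrecPred fun x : ℕ × ℕ => Bad deg x.1 x.2 := by
  have hb1 : Primrec (fun x : ℕ × ℕ => box x.1) := pr_box.comp fst
  have q1 : PrimrecPred (fun x : (((ℕ × ℕ) × (ℕ × ℕ)) × (ℕ × ℕ)) × (ℕ × ℕ) =>
      Adm deg (pt x.1.1.2) (pt x.1.2) (pt x.2) ∧ SidesLe x.1.1.1.1 (pt x.1.1.2) (pt x.1.2) (pt x.2) ∧
        Missed (pt x.1.1.2) (pt x.1.2) (pt x.2) x.1.1.1.2) :=
    pr_one deg (snd.comp (fst.comp fst)) (snd.comp fst) snd (fst.comp (fst.comp (fst.comp fst)))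
      (snd.comp (fst.comp (fst.comp fst)))
  have q2 : PrimrecPred (fun x : ((ℕ × ℕ) × (ℕ × ℕ)) × (ℕ × ℕ) => ∃ c ∈ box x.1.1.1,
      Adm deg (pt x.1.2) (pt x.2) (pt c) ∧ SidesLe x.1.1.1 (pt x.1.2) (pt x.2) (pt c) ∧
        Missed (pt x.1.2) (pt x.2) (pt c) x.1.1.2) :=
    pr_exl (f := fun x : ((ℕ × ℕ) × (ℕ × ℕ)) × (ℕ × ℕ) => box x.1.1.1)
      (p := fun (x : ((ℕ × ℕ) × (ℕ × ℕ)) × (ℕ × ℕ)) (c : ℕ × ℕ) =>
        Adm deg (pt x.1.2) (pt x.2) (pt c) ∧ SidesLe x.1.1.1 (pt x.1.2) (pt x.2) (pt c) ∧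
        Missed (pt x.1.2) (pt x.2) (pt c) x.1.1.2)
      (pr_box.comp (fst.comp (fst.comp fst))) q1.primrecRel
  have q3 : PrimrecPred (fun x : (ℕ × ℕ) × (ℕ × ℕ) => ∃ b ∈ box x.1.1, ∃ c ∈ box x.1.1,
      Adm deg (pt x.2) (pt b) (pt c) ∧ SidesLe x.1.1 (pt x.2) (pt b) (pt c) ∧
        Missed (pt x.2) (pt b) (pt c) x.1.2) :=
    pr_exl (f := fun x : (ℕ × ℕ) × (ℕ × ℕ) => box x.1.1)
      (p := fun (x : (ℕ × ℕ) × (ℕ × ℕ)) (b : ℕ × ℕ) => ∃ c ∈ box x.1.1,
        Adm deg (pt x.2) (pt b) (pt c) ∧ SidesLe x.1.1 (pt x.2) (pt b) (pt c) ∧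
        Missed (pt x.2) (pt b) (pt c) x.1.2)
      (pr_box.comp (fst.comp fst)) q2.primrecRel
  have q4 : PrimrecPred (fun x : ℕ × ℕ => ∃ a ∈ box x.1, ∃ b ∈ box x.1, ∃ c ∈ box x.1,
      Adm deg (pt a) (pt b) (pt c) ∧ SidesLe x.1 (pt a) (pt b) (pt c) ∧
        Missed (pt a) (pt b) (pt c) x.2) :=
    pr_exl (f := fun x : ℕ × ℕ => box x.1)
      (p := fun (x : ℕ × ℕ) (a : ℕ × ℕ) => ∃ b ∈ box x.1, ∃ c ∈ box x.1,
        Adm deg (pt a) (pt b) (pt c) ∧ SidesLe x.1 (pt a) (pt b) (pt c) ∧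
        Missed (pt a) (pt b) (pt c) x.2)
      (pr_box.comp fst) q3.primrecRel
  refine q4.of_eq ?_
  intro x
  exact (bad_iff deg x.1 x.2).symm

theorem bad_finite {deg : Bool} (hC : ConjC deg) (N : ℕ) : {D | Bad deg N D}.Finite := by
  have h1 : {D | Bad deg N D} ⊆ ⋃ a ∈ {a | a ∈ box N}, ⋃ b ∈ {b | b ∈ box N}, ⋃ c ∈ {c | c ∈ box N},
      {D | Adm deg (pt a) (pt b) (pt c) ∧ Missed (pt a) (pt b) (pt c) D} := by
    intro D hD
    obtain ⟨a, ha, b, hb, c, hc, h2, -, h3⟩ := (bad_iff deg N D).1 hD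
    simp only [Set.mem_iUnion]
    exact ⟨a, ha, b, hb, c, hc, h2, h3⟩
  refine Set.Finite.subset ?_ h1
  refine Set.Finite.biUnion (List.finite_toSet _) fun a _ => ?_
  refine Set.Finite.biUnion (List.finite_toSet _) fun b _ => ?_
  refine Set.Finite.biUnion (List.finite_toSet _) fun c _ => ?_
  by_cases h : Adm deg (pt a) (pt b) (pt c)
  · exact (hC _ _ _ h).subset fun D hD => hD.2
  · exact Set.finite_empty.subset fun D hD => absurd hD.1 h

end Pool.Agent.FleaC
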