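import Pool.Agent.FleaC.St

/-!
# Connected states: common descendants and bounds
-/

set_option autoImplicit false

namespace Pool.Agent.FleaC

open Relation

theorem conf (X Y Z : St) (h : Desc X Y) (h' : Desc X Z) :
    ∃ W, ReflGen Desc Y W ∧ ReflTransGen Desc Z W := by
  rcases local_conf h h' with rfl | h1 | h1
  · exact ⟨Y, ReflGen.refl, ReflTransGen.refl⟩
  · exact ⟨Z, ReflGen.single h1, ReflTransGen.refl⟩
  · exact ⟨Y, ReflGen.refl, ReflTransGen.single h1⟩

/-- common descendant -/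
def Conn : St → St → Prop := Join (ReflTransGen Desc)

theorem conn_equiv : Equivalence Conn := equivalence_join_reflTransGen conf

theorem Desc.conn {X Y : St} (h : Desc X Y) : Conn X Y := ⟨Y, ReflTransGen.single h, ReflTransGen.refl⟩

/-- a step between states -/
def Stp (X Y : St) : Prop :=
  ∃ a b c s : ℕ, Val a b c s ∧ X = ({a, b, c}, s) ∧
    (Y = ({a + c + 2 * s, b + c + 2 * s, c}, s + c) ∨
      (2 * s < a + c ∧ 2 * s < b + c ∧ Y = ({a + c - 2 * s, b + c - 2 * s, c}, df c s)))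

theorem Desc.stp {X Y : St} (h : Desc X Y) : Stp X Y := by
  obtain ⟨a, b, c, s, hv, -, h2, h3, hX, hY⟩ := h
  exact ⟨a, b, c, s, hv, hX, Or.inr ⟨h2, h3, hY⟩⟩

theorem Desc.stp' {X Y : St} (h : Desc X Y) : Stp Y X := by
  obtain ⟨a, b, c, s, hv, h1, h2, h3, hX, hY⟩ := h
  refine ⟨a + c - 2 * s, b + c - 2 * s, c, df c s, hv.minus h2 h3, hY, ?_⟩
  have pa := hv.pa
  have pb := hv.pb
  rcases le_total c s with h | h
  · left
    have hd : df c s = s - c := by unfold df; omega
    rw [hX, hd]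
    have e1 : a + c - 2 * s + c + 2 * (s - c) = a := by omega
    have e2 : b + c - 2 * s + c + 2 * (s - c) = b := by omega
    have e3 : s - c + c = s := by omega
    rw [e1, e2, e3]
  · right
    have hd : df c s = c - s := by unfold df; omega
    rw [hX, hd]
    refine ⟨by omega, by omega, ?_⟩
    have e1 : a + c - 2 * s + c - 2 * (c - s) = a := by omega
    have e2 : b + c - 2 * s + c - 2 * (c - s) = b := by omega
    have e3 : df c (c - s) = s := by unfold df; omega
    rw [e1, e2, e3]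

theorem Stp.conn {X Y : St} (h : Stp X Y) : Conn X Y := by
  obtain ⟨a, b, c, s, hv, rfl, rfl | ⟨h2, h3, rfl⟩⟩ := h
  · -- plus
    apply conn_equiv.symm
    apply Desc.conn
    refine ⟨a + c + 2 * s, b + c + 2 * s, c, s + c, hv.plus, ?_, ?_, ?_, rfl, ?_⟩
    · have := hv.pc; omega
    · have := hv.pa; omega
    · have := hv.pb; omega
    · have e1 : a + c + 2 * s + c - 2 * (s + c) = a := by omega
      have e2 : b + c + 2 * s + c - 2 * (s + c) = b := by omega
      have e3 : df c (s + c) = s := by unfold df; omega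
      rw [e1, e2, e3]
  · rcases lt_trichotomy c (2 * s) with h | h | h
    · exact Desc.conn ⟨a, b, c, s, hv, h, h2, h3, rfl, rfl⟩
    · have e1 : a + c - 2 * s = a := by omega
      have e2 : b + c - 2 * s = b := by omega
      have e3 : df c s = s := by unfold df; omega
      rw [e1, e2, e3]
      exact conn_equiv.refl _
    · apply conn_equiv.symm
      apply Desc.conn
      have hd : df c s = c - s := by unfold df; omega
      have pa := hv.pa
      have pb := hv.pb
      refine ⟨a + c - 2 * s, b + c - 2 * s, c, df c s, hv.minus h2 h3, ?_, ?_, ?_, rfl, ?_⟩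
      · omega
      · omega
      · omega
      · rw [hd]
        have e1 : a + c - 2 * s + c - 2 * (c - s) = a := by omega
        have e2 : b + c - 2 * s + c - 2 * (c - s) = b := by omega
        have e3 : df c (c - s) = s := by unfold df; omega
        rw [e1, e2, e3]

/-- the sum of the squared sides -/
def sg (X : St) : ℕ := X.1.sum

theorem sg_mk (a b c s : ℕ) : sg ({a, b, c}, s) = a + b + c := by
  simp [sg, Multiset.insert_eq_cons, add_assoc]

theorem Desc.sg_lt {X Y : St} (h : Desc X Y) : sg Y < sg X := by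
  obtain ⟨a, b, c, s, hv, h1, h2, h3, rfl, rfl⟩ := h
  rw [sg_mk, sg_mk]
  omega

/-- paths of given length -/
def Pth (r : St → St → Prop) : ℕ → St → St → Prop
  | 0, X, Y => X = Y
  | n + 1, X, Y => ∃ Z, r X Z ∧ Pth r n Z Y

theorem pth_trans {r : St → St → Prop} {m n : ℕ} {X Y Z : St} (h : Pth r m X Y) (h' : Pth r n Y Z) :
    Pth r (m + n) X Z := by
  induction m generalizing X with
  | zero =>
    rw [zero_add]
    have : X = Y := h
    rw [this]
    exact h'
  | succ m ih =>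
    obtain ⟨W, h1, h2⟩ := h
    rw [Nat.add_right_comm]
    exact ⟨W, h1, ih h2⟩

theorem pth_down {X Y : St} (h : ReflTransGen Desc X Y) : ∃ n, n ≤ sg X ∧ Pth Stp n X Y := by
  induction h using ReflTransGen.head_induction_on with
  | refl => exact ⟨0, Nat.zero_le _, rfl⟩
  | head h1 _ ih =>
    obtain ⟨n, hn, hp⟩ := ih
    exact ⟨n + 1, by have := h1.sg_lt; omega, _, h1.stp, hp⟩

theorem pth_up {X Y : St} (h : ReflTransGen Desc X Y) : ∃ n, n ≤ sg X ∧ Pth Stp n Y X := by
  induction h using ReflTransGen.head_induction_on with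
  | refl => exact ⟨0, Nat.zero_le _, rfl⟩
  | head h1 _ ih =>
    obtain ⟨n, hn, hp⟩ := ih
    exact ⟨n + 1, by have := h1.sg_lt; omega, pth_trans hp ⟨_, h1.stp', rfl⟩⟩

/-- all three `b ≤ a + c + K` -/
def Bd (K : ℕ) (X : St) : Prop :=
  ∀ a b c : ℕ, X.1 = {a, b, c} → c ≤ a + b + K

theorem bd_mk {K a b c s : ℕ} : Bd K ({a, b, c}, s) ↔ a ≤ b + c + K ∧ b ≤ a + c + K ∧ c ≤ a + b + K := by
  constructor
  · intro h
    refine ⟨?_, ?_, h a b c rfl⟩
    · have := h b c a (by
        change ({a, b, c} : Multiset ℕ) = {b, c, a}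
        rw [rot3' b c a])
      exact this
    · have := h a c b (by
        change ({a, b, c} : Multiset ℕ) = {a, c, b}
        rw [rot3' a c b, rot3])
      exact this
  · rintro ⟨h1, h2, h3⟩ a' b' c' h
    have h' : ({a, b, c} : Multiset ℕ) = {a', b', c'} := h
    rcases ms3 h' with ⟨rfl, rfl, rfl⟩ | ⟨rfl, rfl, rfl⟩ | ⟨rfl, rfl, rfl⟩ | ⟨rfl, rfl, rfl⟩ |
      ⟨rfl, rfl, rfl⟩ | ⟨rfl, rfl, rfl⟩ <;> omega

theorem bd_of_sg {K : ℕ} {X : St} (h : sg X ≤ K) : Bd K X := by
  intro a b c hX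
  have : sg X = a + b + c := by
    unfold sg
    rw [hX]
    simp [Multiset.insert_eq_cons, add_assoc]
  omega

theorem Desc.bd {K : ℕ} {X Y : St} (h : Desc X Y) (hY : Bd K Y) : Bd K X := by
  obtain ⟨a, b, c, s, hv, h1, h2, h3, rfl, rfl⟩ := h
  rw [bd_mk] at hY ⊢
  omega

theorem bd_up {K : ℕ} {X Y : St} (h : ReflTransGen Desc X Y) (hY : Bd K Y) : Bd K X := by
  induction h using ReflTransGen.head_induction_on with
  | refl => exact hY
  | head h1 _ ih => exact h1.bd ih

theorem sg_le_of_down {X Y : St} (h : ReflTransGen Desc X Y) : sg Y ≤ sg X := by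
  induction h using ReflTransGen.head_induction_on with
  | refl => exact le_rfl
  | head h1 _ ih => exact ih.trans h1.sg_lt.le

theorem bound_sorted {K a b c s : ℕ} (hv : Val a b c s) (h1 : a ≤ c) (h2 : b ≤ c)
    (h3 : c ≤ a + b + K) : a + b + c ≤ 4 * K ^ 2 + 16 * s ^ 2 + K := by
  have her := hv.her
  have pa := hv.pa
  have pb := hv.pb
  -- 4ab = (a+b-c)^2 + 4 s^2
  have e : 4 * (a : ℤ) * b = (a + b - c) ^ 2 + 4 * s ^ 2 := by
    linear_combination (-1 : ℤ) * her
  have ha1 : (1 : ℤ) ≤ a := by exact_mod_cast pa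
  have hb1 : (1 : ℤ) ≤ b := by exact_mod_cast pb
  have h1' : (a : ℤ) ≤ c := by exact_mod_cast h1
  have h2' : (b : ℤ) ≤ c := by exact_mod_cast h2
  have h3' : (c : ℤ) ≤ a + b + K := by exact_mod_cast h3
  have hs0 : (0 : ℤ) ≤ (s : ℤ) ^ 2 := sq_nonneg _
  have hK0 : (0 : ℤ) ≤ K := Int.natCast_nonneg K
  have key : (a : ℤ) ≤ K ^ 2 + 4 * s ^ 2 ∧ (b : ℤ) ≤ K ^ 2 + 4 * s ^ 2 := by
    rcases le_total (c : ℤ) (a + b) with h4 | h4
    · -- acute: (a+b-c)^2 ≤ a b
      have h5 : ((a : ℤ) + b - c) ^ 2 ≤ a * b := by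
        nlinarith [mul_nonneg (sub_nonneg.2 h4) (sub_nonneg.2 h1'),
          mul_nonneg (sub_nonneg.2 h4) (sub_nonneg.2 h2'),
          mul_nonneg (sub_nonneg.2 h1') (sub_nonneg.2 h2')]
      have h6 : (a : ℤ) * b ≤ 4 * s ^ 2 := by nlinarith
      constructor <;> nlinarith [sq_nonneg (K : ℤ)]
    · have h5 : ((a : ℤ) + b - c) ^ 2 ≤ K ^ 2 := by
        nlinarith
      have h6 : 4 * (a : ℤ) * b ≤ K ^ 2 + 4 * s ^ 2 := by linarith
      constructor <;> nlinarith [sq_nonneg (K : ℤ)]
  have : (a : ℤ) + b + c ≤ 4 * K ^ 2 + 16 * s ^ 2 + K := by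
    linarith [key.1, key.2]
  exact_mod_cast this

theorem bound {K : ℕ} {a b c s : ℕ} (hv : Val a b c s) (h : Bd K ({a, b, c}, s)) :
    a + b + c ≤ 4 * K ^ 2 + 16 * s ^ 2 + K := by
  rw [bd_mk] at h
  obtain ⟨h1, h2, h3⟩ := h
  rcases le_total a b with h4 | h4
  · rcases le_total b c with h5 | h5
    · exact bound_sorted hv (h4.trans h5) h5 h3
    · have := bound_sorted (K := K) (a := c) (b := a) (c := b) hv.rot.rot h5 h4 (by omega)
      omega
  · rcases le_total a c with h5 | h5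
    · exact bound_sorted hv h5 (h4.trans h5) h3
    · have := bound_sorted (K := K) (a := b) (b := c) (c := a) hv.rot h4 h5 (by omega)
      omega

/-- Any two connected valid states are joined by a short path. -/
theorem short {X : St} {a b c s : ℕ} (hv : Val a b c s) (h : Conn X ({a, b, c}, s)) :
    ∃ n, n ≤ 4 * sg X ^ 2 + 16 * s ^ 2 + 2 * sg X ∧ Pth Stp n X ({a, b, c}, s) := by
  obtain ⟨R, h1, h2⟩ := h
  obtain ⟨m, hm, p1⟩ := pth_down h1
  obtain ⟨n, hn, p2⟩ := pth_up h2
  have hR : Bd (sg X) R := bd_of_sg (sg_le_of_down h1)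
  have hb := bound hv (bd_up h2 hR)
  refine ⟨m + n, ?_, pth_trans p1 p2⟩
  rw [sg_mk] at hn
  omega

end Pool.Agent.FleaC
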