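import Mathlib

/-!
# The three fleas with moves to unoccupied points: definitions
-/

set_option autoImplicit false

namespace Pool.Agent.FleaC

/-- the imaginary unit -/
def I : GaussianInt := ⟨0, 1⟩

/-- `P Q R S` is a square, with its vertices in this cyclic order (for `P ≠ Q`) -/
def Square (P Q R S : GaussianInt) : Prop :=
  (R = Q + I * (Q - P) ∧ S = P + I * (Q - P)) ∨ (R = Q - I * (Q - P) ∧ S = P - I * (Q - P))

/-- a move: two fleas `P`, `Q` of the configuration `c` are relocated to the unoccupied points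
`R`, `S` such that `P Q R S` is a square; the third flea `T` stays put -/
def Move (c c' : Multiset GaussianInt) : Prop :=
  ∃ P Q T R S : GaussianInt, Square P Q R S ∧ R ∉ c ∧ S ∉ c ∧ c = {P, Q, T} ∧ c' = {R, S, T}

/-- the square of the distance of `P` and `Q` -/
def dist2 (P Q : GaussianInt) : ℕ := ((Q.re - P.re) ^ 2 + (Q.im - P.im) ^ 2).natAbs

/-- twice the area of the triangle `P Q T` -/
def area2 (P Q T : GaussianInt) : ℕ :=
  ((Q.re - P.re) * (T.im - P.im) - (Q.im - P.im) * (T.re - P.re)).natAbs

/-- three distinct points -/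
def Distinct (A B C : GaussianInt) : Prop := A ≠ B ∧ B ≠ C ∧ C ≠ A

/-- `D / 2` is the area of a configuration which is reachable from `A B C` -/
def Occurs (A B C : GaussianInt) (D : ℕ) : Prop :=
  ∃ P Q T : GaussianInt, Relation.ReflTransGen Move {A, B, C} {P, Q, T} ∧ area2 P Q T = D

/-- the point with the coordinates `p` -/
def pz (p : ℤ × ℤ) : GaussianInt := ⟨p.1, p.2⟩

/-- `A`, `B`, `C` do not all lie in one proper square sublattice
`v + ℤ (p, q) + ℤ (-q, p) = v + c ℤ[i]`, `c = p + q i`, `p ^ 2 + q ^ 2 > 1` -/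
def Primitive (A B C : GaussianInt) : Prop :=
  ∀ v c : GaussianInt, 1 < c.norm → ¬ (c ∣ A - v ∧ c ∣ B - v ∧ c ∣ C - v)

/-- `D / 2` is not a perfect square and is not the area of a configuration reachable from
`A B C` -/
def Missed (A B C : GaussianInt) (D : ℕ) : Prop := ¬ Occurs A B C D ∧ ∀ n : ℕ, D ≠ 2 * n ^ 2

/-- the primitive triangles; the degenerate ones are admitted if `deg = true` -/
def Adm (deg : Bool) (A B C : GaussianInt) : Prop :=
  Distinct A B C ∧ Primitive A B C ∧ (deg = true ∨ area2 A B C ≠ 0)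

/-- Conjecture C -/
def ConjC (deg : Bool) : Prop := ∀ A B C : GaussianInt, Adm deg A B C → {D | Missed A B C D}.Finite

/-- all side lengths are at most `N` -/
def SidesLe (N : ℕ) (A B C : GaussianInt) : Prop :=
  dist2 A B ≤ N ^ 2 ∧ dist2 B C ≤ N ^ 2 ∧ dist2 C A ≤ N ^ 2

/-- `2 f(N)`: the largest missed doubled area of the primitive triangles with sides at most `N`
(`0` if there is none) -/
noncomputable def f2 (deg : Bool) (N : ℕ) : ℕ :=
  sSup {D | ∃ A B C : GaussianInt, Adm deg A B C ∧ SidesLe N A B C ∧ Missed A B C D}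

end Pool.Agent.FleaC
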