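import Pool.Agent.FleaC.Prim

/-!
# Primitive triangles
-/

set_option autoImplicit false

namespace Pool.Agent.FleaC

open Primrec

theorem norm_mk (u v : ℤ) : (⟨u, v⟩ : GaussianInt).norm = u * u + v * v := by
  unfold Zsqrtd.norm
  ring

theorem norm_sub (P Q : GaussianInt) : (Q - P).norm = dist2 P Q := by
  rw [dist2_cast]
  unfold Zsqrtd.norm
  rw [Zsqrtd.re_sub, Zsqrtd.im_sub]
  ring

/-- `u + v i` divides `B - A` -/
def Dv (u v : ℕ) (A B : ℕ × ℕ) : Prop :=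
  (u * A.1 + v * A.2) % (u * u + v * v) = (u * B.1 + v * B.2) % (u * u + v * v) ∧
    (u * A.2 + v * B.1) % (u * u + v * v) = (u * B.2 + v * A.1) % (u * u + v * v)

theorem dvd_mk (u v : ℤ) (h : 0 < u * u + v * v) (w : GaussianInt) :
    (⟨u, v⟩ : GaussianInt) ∣ w ↔
      (u * u + v * v) ∣ u * w.re + v * w.im ∧ (u * u + v * v) ∣ u * w.im - v * w.re := by
  constructor
  · rintro ⟨d, rfl⟩
    have e1 : ((⟨u, v⟩ : GaussianInt) * d).re = u * d.re - v * d.im := by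
      rw [Zsqrtd.re_mul]
      ring
    have e2 : ((⟨u, v⟩ : GaussianInt) * d).im = u * d.im + v * d.re := by
      rw [Zsqrtd.im_mul]
    rw [e1, e2]
    exact ⟨⟨d.re, by ring⟩, ⟨d.im, by ring⟩⟩
  · rintro ⟨⟨x, hx⟩, ⟨y, hy⟩⟩
    refine ⟨⟨x, y⟩, ?_⟩
    apply Zsqrtd.ext
    · rw [Zsqrtd.re_mul]
      change w.re = u * x + (-1) * v * y
      have : (u * u + v * v) * w.re = (u * u + v * v) * (u * x + (-1) * v * y) := by
        linear_combination u * hx - v * hy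
      exact mul_left_cancel₀ h.ne' this
    · rw [Zsqrtd.im_mul]
      change w.im = u * y + v * x
      have : (u * u + v * v) * w.im = (u * u + v * v) * (u * y + v * x) := by
        linear_combination v * hx + u * hy
      exact mul_left_cancel₀ h.ne' this

theorem dv_iff (u v : ℕ) (h : 0 < u * u + v * v) (A B : ℕ × ℕ) :
    (⟨u, v⟩ : GaussianInt) ∣ pt B - pt A ↔ Dv u v A B := by
  have h' : (0 : ℤ) < (u : ℤ) * u + (v : ℤ) * v := by exact_mod_cast h
  rw [dvd_mk _ _ h']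
  have e1 : (pt B - pt A).re = (B.1 : ℤ) - A.1 := by rw [Zsqrtd.re_sub]; rfl
  have e2 : (pt B - pt A).im = (B.2 : ℤ) - A.2 := by rw [Zsqrtd.im_sub]; rfl
  rw [e1, e2]
  unfold Dv
  have key : ∀ x y : ℕ, x % (u * u + v * v) = y % (u * u + v * v) ↔
      ((u : ℤ) * u + (v : ℤ) * v) ∣ (y : ℤ) - x := by
    intro x y
    change x ≡ y [MOD (u * u + v * v)] ↔ _
    rw [Nat.modEq_iff_dvd]
    push_cast
    exact Iff.rfl
  rw [key, key]
  apply and_congr
  · rw [show (u : ℤ) * ((B.1 : ℤ) - A.1) + v * ((B.2 : ℤ) - A.2) =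
      ((u * B.1 + v * B.2 : ℕ) : ℤ) - ((u * A.1 + v * A.2 : ℕ) : ℤ) by push_cast; ring]
  · rw [show (u : ℤ) * ((B.2 : ℤ) - A.2) - v * ((B.1 : ℤ) - A.1) =
      ((u * B.2 + v * A.1 : ℕ) : ℤ) - ((u * A.2 + v * B.1 : ℕ) : ℤ) by push_cast; ring]

/-- every Gaussian integer has an associate with natural coordinates -/
theorem assoc (c : GaussianInt) : ∃ u v : ℕ, ((⟨u, v⟩ : GaussianInt) ∣ c ∧ c ∣ (⟨u, v⟩ : GaussianInt)) := by
  have hI : I * I = -1 := by
    unfold I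
    apply Zsqrtd.ext <;> simp
  obtain ⟨a, b⟩ := c
  rcases le_total 0 a with ha | ha <;> rcases le_total 0 b with hb | hb
  · obtain ⟨u, rfl⟩ := Int.eq_ofNat_of_zero_le ha
    obtain ⟨v, rfl⟩ := Int.eq_ofNat_of_zero_le hb
    exact ⟨u, v, dvd_refl _, dvd_refl _⟩
  · -- multiply by `I`: `(-b, a)`
    obtain ⟨u, hu⟩ := Int.eq_ofNat_of_zero_le (neg_nonneg.2 hb)
    obtain ⟨v, rfl⟩ := Int.eq_ofNat_of_zero_le ha
    have e : (⟨(u : ℤ), (v : ℤ)⟩ : GaussianInt) = ⟨(v : ℤ), b⟩ * I := by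
      unfold I
      apply Zsqrtd.ext <;> simp <;> omega
    refine ⟨u, v, ⟨-I, ?_⟩, ⟨I, e⟩⟩
    rw [e, mul_assoc, mul_neg, hI, neg_neg, mul_one]
  · -- multiply by `-I`: `(b, -a)`
    obtain ⟨u, rfl⟩ := Int.eq_ofNat_of_zero_le hb
    obtain ⟨v, hv⟩ := Int.eq_ofNat_of_zero_le (neg_nonneg.2 ha)
    have e : (⟨(u : ℤ), (v : ℤ)⟩ : GaussianInt) = ⟨a, (u : ℤ)⟩ * (-I) := by
      unfold I
      apply Zsqrtd.ext <;> simp <;> omega
    refine ⟨u, v, ⟨I, ?_⟩, ⟨-I, e⟩⟩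
    rw [e, mul_assoc, neg_mul, hI, neg_neg, mul_one]
  · obtain ⟨u, hu⟩ := Int.eq_ofNat_of_zero_le (neg_nonneg.2 ha)
    obtain ⟨v, hv⟩ := Int.eq_ofNat_of_zero_le (neg_nonneg.2 hb)
    have e : (⟨(u : ℤ), (v : ℤ)⟩ : GaussianInt) = ⟨a, b⟩ * (-1) := by
      apply Zsqrtd.ext <;> simp <;> omega
    refine ⟨u, v, ⟨-1, ?_⟩, ⟨-1, e⟩⟩
    rw [e, mul_assoc, neg_mul_neg, one_mul, mul_one]

theorem primitive_iff' (A B C : GaussianInt) :
    Primitive A B C ↔ ∀ c : GaussianInt, 1 < c.norm → ¬ (c ∣ B - A ∧ c ∣ C - A) := by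
  constructor
  · intro h c hc hcd
    apply h A c hc
    rw [sub_self]
    exact ⟨dvd_zero _, hcd⟩
  · rintro h v c hc ⟨h1, h2, h3⟩
    apply h c hc
    constructor
    · have := dvd_sub h2 h1
      rwa [sub_sub_sub_cancel_right] at this
    · have := dvd_sub h3 h1
      rwa [sub_sub_sub_cancel_right] at this

theorem primitive_pt {A B C : ℕ × ℕ} (h : pt A ≠ pt B) :
    Primitive (pt A) (pt B) (pt C) ↔ ¬ ∃ u < dist2 (pt A) (pt B) + 1,
      ∃ v < dist2 (pt A) (pt B) + 1, 1 < u * u + v * v ∧ Dv u v A B ∧ Dv u v A C := by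
  rw [primitive_iff']
  constructor
  · rintro hp ⟨u, -, v, -, h1, h2, h3⟩
    have h0 : 0 < u * u + v * v := by omega
    apply hp ⟨u, v⟩ _ ⟨(dv_iff u v h0 A B).2 h2, (dv_iff u v h0 A C).2 h3⟩
    rw [norm_mk]
    exact_mod_cast h1
  · rintro hp c hc ⟨h1, h2⟩
    apply hp
    obtain ⟨u, v, hd1, hd2⟩ := assoc c
    have hn : c.norm = u * u + v * v := by
      rw [← norm_mk]
      obtain ⟨x, hx⟩ := hd1
      obtain ⟨y, hy⟩ := hd2
      have hpos : 0 < c.norm := by linarith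
      have n1 : c.norm = (⟨u, v⟩ : GaussianInt).norm * x.norm := by
        conv_lhs => rw [hx]
        exact Zsqrtd.norm_mul _ _
      have n2 : (⟨u, v⟩ : GaussianInt).norm = c.norm * y.norm := by
        conv_lhs => rw [hy]
        exact Zsqrtd.norm_mul _ _
      have i1 : (⟨u, v⟩ : GaussianInt).norm ∣ c.norm := ⟨_, n1⟩
      have i2 : c.norm ∣ (⟨u, v⟩ : GaussianInt).norm := ⟨_, n2⟩
      exact Int.dvd_antisymm hpos.le (GaussianInt.norm_nonneg _) i2 i1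
    have h0 : 1 < u * u + v * v := by
      rw [hn] at hc
      exact_mod_cast hc
    have g1 : (⟨u, v⟩ : GaussianInt) ∣ pt B - pt A := hd1.trans h1
    have g2 : (⟨u, v⟩ : GaussianInt) ∣ pt C - pt A := hd1.trans h2
    have hle : u * u + v * v ≤ dist2 (pt A) (pt B) := by
      obtain ⟨x, hx⟩ := g1
      have n1 : (pt B - pt A).norm = (⟨u, v⟩ : GaussianInt).norm * x.norm := by
        rw [hx]
        exact Zsqrtd.norm_mul _ _
      rw [norm_sub, norm_mk] at n1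
      have hp : 0 < dist2 (pt A) (pt B) := dist2_pos h
      have hx0 : 0 ≤ x.norm := GaussianInt.norm_nonneg x
      have hx1 : 1 ≤ x.norm := by
        by_contra hx2
        have : x.norm = 0 := by omega
        rw [this, mul_zero] at n1
        omega
      have h4 : ((u * u + v * v : ℕ) : ℤ) ≤ ((dist2 (pt A) (pt B) : ℕ) : ℤ) := by
        rw [n1]
        push_cast
        nlinarith [mul_self_nonneg (u : ℤ), mul_self_nonneg (v : ℤ)]
      exact_mod_cast h4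
    refine ⟨u, ?_, v, ?_, h0, (dv_iff u v (by omega) A B).1 g1, (dv_iff u v (by omega) A C).1 g2⟩
    · nlinarith [Nat.zero_le (v * v), Nat.le_mul_self u]
    · nlinarith [Nat.zero_le (u * u), Nat.le_mul_self v]

theorem pr_dv {α : Type} [Primcodable α] {u v : α → ℕ} {A B : α → ℕ × ℕ} (hu : Primrec u)
    (hv : Primrec v) (hA : Primrec A) (hB : Primrec B) :
    PrimrecPred fun a => Dv (u a) (v a) (A a) (B a) := by
  have m := nat_add.comp (nat_mul.comp hu hu) (nat_mul.comp hv hv)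
  have A1 := fst.comp hA
  have A2 := snd.comp hA
  have B1 := fst.comp hB
  have B2 := snd.comp hB
  exact (Primrec.eq.comp (nat_mod.comp (nat_add.comp (nat_mul.comp hu A1) (nat_mul.comp hv A2)) m)
    (nat_mod.comp (nat_add.comp (nat_mul.comp hu B1) (nat_mul.comp hv B2)) m)).and
    (Primrec.eq.comp (nat_mod.comp (nat_add.comp (nat_mul.comp hu A2) (nat_mul.comp hv B1)) m)
    (nat_mod.comp (nat_add.comp (nat_mul.comp hu B2) (nat_mul.comp hv A1)) m))

theorem pr_primitive {α : Type} [Primcodable α] {f g h : α → ℕ × ℕ} (hf : Primrec f)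
    (hg : Primrec g) (hh : Primrec h) :
    PrimrecPred fun a => pt (f a) ≠ pt (g a) ∧ Primitive (pt (f a)) (pt (g a)) (pt (h a)) := by
  have hd := pr_dist hf hg
  have hne : PrimrecPred (fun a => pt (f a) ≠ pt (g a)) := by
    refine (Primrec.eq.comp hf hg).not.of_eq ?_
    intro a
    exact not_congr ⟨fun h => congrArg pt h, pt_inj⟩
  have h1 : PrimrecPred (fun x : (α × ℕ) × ℕ => 1 < x.1.2 * x.1.2 + x.2 * x.2 ∧
      Dv x.1.2 x.2 (f x.1.1) (g x.1.1) ∧ Dv x.1.2 x.2 (f x.1.1) (h x.1.1)) := by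
    have hu : Primrec (fun x : (α × ℕ) × ℕ => x.1.2) := snd.comp fst
    have hv : Primrec (fun x : (α × ℕ) × ℕ => x.2) := snd
    have ha : Primrec (fun x : (α × ℕ) × ℕ => x.1.1) := fst.comp fst
    exact (nat_lt.comp (Primrec.const 1) (nat_add.comp (nat_mul.comp hu hu) (nat_mul.comp hv hv))).and
      ((pr_dv hu hv (hf.comp ha) (hg.comp ha)).and (pr_dv hu hv (hf.comp ha) (hh.comp ha)))
  have h2 : PrimrecPred (fun x : α × ℕ => ∃ v < dist2 (pt (f x.1)) (pt (g x.1)) + 1,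
      1 < x.2 * x.2 + v * v ∧ Dv x.2 v (f x.1) (g x.1) ∧ Dv x.2 v (f x.1) (h x.1)) :=
    pr_ex (f := fun x : α × ℕ => dist2 (pt (f x.1)) (pt (g x.1)) + 1)
      (p := fun (x : α × ℕ) (v : ℕ) => 1 < x.2 * x.2 + v * v ∧ Dv x.2 v (f x.1) (g x.1) ∧
        Dv x.2 v (f x.1) (h x.1))
      (nat_add.comp (hd.comp fst) (Primrec.const 1)) h1.primrecRel
  have h3 : PrimrecPred (fun a : α => ∃ u < dist2 (pt (f a)) (pt (g a)) + 1,
      ∃ v < dist2 (pt (f a)) (pt (g a)) + 1,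
      1 < u * u + v * v ∧ Dv u v (f a) (g a) ∧ Dv u v (f a) (h a)) :=
    pr_ex (f := fun a : α => dist2 (pt (f a)) (pt (g a)) + 1)
      (p := fun (a : α) (u : ℕ) => ∃ v < dist2 (pt (f a)) (pt (g a)) + 1,
        1 < u * u + v * v ∧ Dv u v (f a) (g a) ∧ Dv u v (f a) (h a))
      (nat_add.comp hd (Primrec.const 1)) h2.primrecRel
  refine (hne.and h3.not).of_eq ?_
  intro a
  constructor
  · rintro ⟨k1, k2⟩
    exact ⟨k1, (primitive_pt k1).2 k2⟩
  · rintro ⟨k1, k2⟩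
    exact ⟨k1, (primitive_pt k1).1 k2⟩

end Pool.Agent.FleaC
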