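import Pool.Agent.FleaC.Defs
import Pool.Agent.FleaC.Conn

/-!
# Moves of the fleas and steps of the states
-/

set_option autoImplicit false

namespace Pool.Agent.FleaC

open Relation

theorem dist2_cast (P Q : GaussianInt) :
    ((dist2 P Q : ℕ) : ℤ) = (Q.re - P.re) ^ 2 + (Q.im - P.im) ^ 2 := by
  unfold dist2
  exact Int.natAbs_of_nonneg (by positivity)

theorem dist2_comm (P Q : GaussianInt) : dist2 P Q = dist2 Q P := by
  have : ((dist2 P Q : ℕ) : ℤ) = dist2 Q P := by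
    rw [dist2_cast, dist2_cast]
    ring
  exact_mod_cast this

theorem dist2_pos {P Q : GaussianInt} (h : P ≠ Q) : 1 ≤ dist2 P Q := by
  by_contra h1
  have h2 : dist2 P Q = 0 := by omega
  have h3 := dist2_cast P Q
  rw [h2] at h3
  push_cast at h3
  apply h
  have h4 : Q.re - P.re = 0 := by nlinarith [sq_nonneg (Q.re - P.re), sq_nonneg (Q.im - P.im)]
  have h5 : Q.im - P.im = 0 := by nlinarith [sq_nonneg (Q.re - P.re), sq_nonneg (Q.im - P.im)]
  apply Zsqrtd.ext <;> omega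

theorem dist2_self (P : GaussianInt) : dist2 P P = 0 := by
  simp [dist2]

/-- signed doubled area -/
def sarea (P Q T : GaussianInt) : ℤ :=
  (Q.re - P.re) * (T.im - P.im) - (Q.im - P.im) * (T.re - P.re)

theorem area2_eq (P Q T : GaussianInt) : area2 P Q T = (sarea P Q T).natAbs := rfl

theorem area2_rot (P Q T : GaussianInt) : area2 P Q T = area2 Q T P := by
  rw [area2_eq, area2_eq]
  congr 1
  unfold sarea
  ring

theorem area2_swap (P Q T : GaussianInt) : area2 P Q T = area2 Q P T := by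
  rw [area2_eq, area2_eq, ← Int.natAbs_neg]
  congr 1
  unfold sarea
  ring

/-- the state of a triangle -/
def st (A B C : GaussianInt) : St := ({dist2 C A, dist2 B C, dist2 A B}, area2 A B C)

theorem st_rot (A B C : GaussianInt) : st A B C = st B C A := by
  unfold st
  rw [area2_rot, rot3' (dist2 C A) (dist2 B C) (dist2 A B)]

theorem st_swap (A B C : GaussianInt) : st A B C = st B A C := by
  unfold st
  rw [area2_swap, dist2_comm C A, dist2_comm B C, dist2_comm A B, rot3]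

theorem st_perm {A B C P Q T : GaussianInt} (h : ({A, B, C} : Multiset GaussianInt) = {P, Q, T}) :
    st A B C = st P Q T := by
  rcases ms3 h with ⟨h1, h2, h3⟩ | ⟨h1, h2, h3⟩ | ⟨h1, h2, h3⟩ | ⟨h1, h2, h3⟩ |
    ⟨h1, h2, h3⟩ | ⟨h1, h2, h3⟩ <;> rw [h1, h2, h3]
  · rw [st_rot, st_rot, st_swap]
  · exact st_swap _ _ _
  · exact (st_rot _ _ _).symm
  · exact st_rot _ _ _
  · rw [st_rot, st_swap]

theorem distinct_iff {A B C : GaussianInt} :
    Distinct A B C ↔ ({A, B, C} : Multiset GaussianInt).Nodup := by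
  unfold Distinct
  simp only [Multiset.insert_eq_cons, Multiset.nodup_cons, Multiset.mem_cons,
    Multiset.mem_singleton, Multiset.nodup_singleton, and_true, not_or]
  constructor
  · rintro ⟨h1, h2, h3⟩
    exact ⟨⟨h1, fun h => h3 h.symm⟩, h2⟩
  · rintro ⟨⟨h1, h2⟩, h3⟩
    exact ⟨h1, h3, fun h => h2 h.symm⟩

theorem val_st {P Q T : GaussianInt} (h : Distinct P Q T) :
    Val (dist2 T P) (dist2 Q T) (dist2 P Q) (area2 P Q T) := by
  refine ⟨dist2_pos h.2.2, dist2_pos h.2.1, dist2_pos h.1, ?_⟩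
  rw [area2_eq, Int.natCast_natAbs, sq_abs, dist2_cast, dist2_cast, dist2_cast]
  unfold sarea
  ring

/-- the effect of a move with sign `e` -/
theorem move_effect {P Q T R S : GaussianInt} {e : ℤ} (he : e = 1 ∨ e = -1)
    (hR : R.re = Q.re - e * (Q.im - P.im) ∧ R.im = Q.im + e * (Q.re - P.re))
    (hS : S.re = P.re - e * (Q.im - P.im) ∧ S.im = P.im + e * (Q.re - P.re)) :
    ((dist2 R S : ℕ) : ℤ) = dist2 P Q ∧
    ((dist2 T S : ℕ) : ℤ) = dist2 T P + dist2 P Q - 2 * e * sarea P Q T ∧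
    ((dist2 T R : ℕ) : ℤ) = dist2 Q T + dist2 P Q - 2 * e * sarea P Q T ∧
    area2 R S T = (dist2 P Q - e * sarea P Q T).natAbs := by
  obtain ⟨hR1, hR2⟩ := hR
  obtain ⟨hS1, hS2⟩ := hS
  have he2 : e ^ 2 = 1 := by rcases he with rfl | rfl <;> norm_num
  refine ⟨?_, ?_, ?_, ?_⟩
  · rw [dist2_cast, dist2_cast, hR1, hR2, hS1, hS2]
    ring
  · rw [dist2_cast, dist2_cast, dist2_cast, hS1, hS2]
    unfold sarea
    linear_combination ((Q.im - P.im) ^ 2 + (Q.re - P.re) ^ 2) * he2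
  · rw [dist2_cast, dist2_cast, dist2_cast, hR1, hR2]
    unfold sarea
    linear_combination ((Q.im - P.im) ^ 2 + (Q.re - P.re) ^ 2) * he2
  · rw [area2_eq, dist2_cast]
    unfold sarea
    rw [hR1, hR2, hS1, hS2]
    rcases he with rfl | rfl
    · congr 1
      ring
    · rw [← Int.natAbs_neg]
      congr 1
      ring

theorem square_iff {P Q R S : GaussianInt} : Square P Q R S ↔ ∃ e : ℤ, (e = 1 ∨ e = -1) ∧
    (R.re = Q.re - e * (Q.im - P.im) ∧ R.im = Q.im + e * (Q.re - P.re)) ∧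
    (S.re = P.re - e * (Q.im - P.im) ∧ S.im = P.im + e * (Q.re - P.re)) := by
  unfold Square I
  constructor
  · rintro (⟨rfl, rfl⟩ | ⟨rfl, rfl⟩)
    · refine ⟨1, Or.inl rfl, ⟨?_, ?_⟩, ⟨?_, ?_⟩⟩ <;> simp <;> ring
    · refine ⟨-1, Or.inr rfl, ⟨?_, ?_⟩, ⟨?_, ?_⟩⟩ <;> simp <;> ring
  · rintro ⟨e, rfl | rfl, ⟨h1, h2⟩, h3, h4⟩
    · left
      constructor <;> apply Zsqrtd.ext <;> simp [h1, h2, h3, h4] <;> ring
    · right
      constructor <;> apply Zsqrtd.ext <;> simp [h1, h2, h3, h4] <;> ring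

/-- the side `c` and its neighbours -/
def Rep (P Q T : GaussianInt) (a b c s : ℕ) : Prop :=
  dist2 T P = a ∧ dist2 Q T = b ∧ dist2 P Q = c ∧ area2 P Q T = s

theorem p231 {α : Type} (A B C : α) : ({A, B, C} : Multiset α) = {B, C, A} := (rot3' B C A).symm

theorem p321 {α : Type} (A B C : α) : ({A, B, C} : Multiset α) = {C, B, A} := by
  rw [rot3 C B A, rot3' B C A]

theorem p132 {α : Type} (A B C : α) : ({A, B, C} : Multiset α) = {A, C, B} := by
  rw [rot3 A C B, ← rot3' A B C]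

theorem exists_rep {A B C : GaussianInt} {a b c s : ℕ} (h : st A B C = ({a, b, c}, s)) :
    ∃ P Q T : GaussianInt, ({A, B, C} : Multiset GaussianInt) = {P, Q, T} ∧ Rep P Q T a b c s := by
  have hs : area2 A B C = s := congrArg Prod.snd h
  have hm : ({dist2 C A, dist2 B C, dist2 A B} : Multiset ℕ) = {a, b, c} := congrArg Prod.fst h
  rcases ms3 hm with ⟨h1, h2, h3⟩ | ⟨h1, h2, h3⟩ | ⟨h1, h2, h3⟩ | ⟨h1, h2, h3⟩ |
    ⟨h1, h2, h3⟩ | ⟨h1, h2, h3⟩
  · exact ⟨A, B, C, rfl, h1, h2, h3, hs⟩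
  · exact ⟨C, B, A, p321 _ _ _, by rw [dist2_comm]; exact h1, by rw [dist2_comm]; exact h3,
      by rw [dist2_comm]; exact h2, by rw [area2_swap, ← area2_rot, hs]⟩
  · exact ⟨B, A, C, rot3 _ _ _, by rw [dist2_comm]; exact h2, by rw [dist2_comm]; exact h1,
      by rw [dist2_comm]; exact h3, by rw [area2_swap, hs]⟩
  · exact ⟨B, C, A, p231 _ _ _, h3, h1, h2, by rw [← area2_rot, hs]⟩
  · exact ⟨C, A, B, rot3' _ _ _, h2, h3, h1, by rw [area2_rot, hs]⟩
  · exact ⟨A, C, B, p132 _ _ _, by rw [dist2_comm]; exact h3, by rw [dist2_comm]; exact h2,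
      by rw [dist2_comm]; exact h1, by rw [area2_swap, area2_rot, hs]⟩

/-- a move in terms of signs -/
theorem lift_sign {P Q T : GaussianInt} (hd : Distinct P Q T) {e : ℤ} (he : e = 1 ∨ e = -1)
    {a' b' : ℕ} (ha : (a' : ℤ) = dist2 T P + dist2 P Q - 2 * e * sarea P Q T)
    (hb : (b' : ℤ) = dist2 Q T + dist2 P Q - 2 * e * sarea P Q T) (pa : 1 ≤ a') (pb : 1 ≤ b') :
    ∃ R S : GaussianInt, Move {P, Q, T} {R, S, T} ∧ Distinct R S T ∧
      st R S T = ({a', b', dist2 P Q}, (dist2 P Q - e * sarea P Q T).natAbs) := by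
  set R : GaussianInt := ⟨Q.re - e * (Q.im - P.im), Q.im + e * (Q.re - P.re)⟩ with hR
  set S : GaussianInt := ⟨P.re - e * (Q.im - P.im), P.im + e * (Q.re - P.re)⟩ with hS
  have hsq : Square P Q R S := square_iff.2 ⟨e, he, ⟨rfl, rfl⟩, rfl, rfl⟩
  obtain ⟨h1, h2, h3, h4⟩ := move_effect (P := P) (Q := Q) (T := T) (R := R) (S := S) he
    ⟨rfl, rfl⟩ ⟨rfl, rfl⟩
  have hPQ := dist2_pos hd.1
  have e1 : dist2 R S = dist2 P Q := by exact_mod_cast h1
  have e2 : dist2 T S = a' := by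
    have : ((dist2 T S : ℕ) : ℤ) = a' := by rw [h2, ha]
    exact_mod_cast this
  have e3 : dist2 T R = b' := by
    have : ((dist2 T R : ℕ) : ℤ) = b' := by rw [h3, hb]
    exact_mod_cast this
  have he2 : e ^ 2 = 1 := by rcases he with rfl | rfl <;> norm_num
  have dPR : ((dist2 P R : ℕ) : ℤ) = 2 * dist2 P Q := by
    rw [dist2_cast, dist2_cast]
    change ((Q.re - e * (Q.im - P.im)) - P.re) ^ 2 + ((Q.im + e * (Q.re - P.re)) - P.im) ^ 2 = _
    linear_combination ((Q.im - P.im) ^ 2 + (Q.re - P.re) ^ 2) * he2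
  have dQR : ((dist2 Q R : ℕ) : ℤ) = dist2 P Q := by
    rw [dist2_cast, dist2_cast]
    change ((Q.re - e * (Q.im - P.im)) - Q.re) ^ 2 + ((Q.im + e * (Q.re - P.re)) - Q.im) ^ 2 = _
    linear_combination ((Q.im - P.im) ^ 2 + (Q.re - P.re) ^ 2) * he2
  have dPS : ((dist2 P S : ℕ) : ℤ) = dist2 P Q := by
    rw [dist2_cast, dist2_cast]
    change ((P.re - e * (Q.im - P.im)) - P.re) ^ 2 + ((P.im + e * (Q.re - P.re)) - P.im) ^ 2 = _
    linear_combination ((Q.im - P.im) ^ 2 + (Q.re - P.re) ^ 2) * he2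
  have dQS : ((dist2 Q S : ℕ) : ℤ) = 2 * dist2 P Q := by
    rw [dist2_cast, dist2_cast]
    change ((P.re - e * (Q.im - P.im)) - Q.re) ^ 2 + ((P.im + e * (Q.re - P.re)) - Q.im) ^ 2 = _
    linear_combination ((Q.im - P.im) ^ 2 + (Q.re - P.re) ^ 2) * he2
  have ne : ∀ X Y : GaussianInt, 1 ≤ dist2 X Y → X ≠ Y := by
    rintro X Y h rfl
    rw [dist2_self] at h
    omega
  refine ⟨R, S, ⟨P, Q, T, R, S, hsq, ?_, ?_, rfl, rfl⟩, ⟨?_, ?_, ?_⟩, ?_⟩
  · simp only [Multiset.insert_eq_cons, Multiset.mem_cons, Multiset.mem_singleton, not_or]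
    refine ⟨(ne P R ?_).symm, (ne Q R ?_).symm, (ne T R ?_).symm⟩
    · omega
    · omega
    · omega
  · simp only [Multiset.insert_eq_cons, Multiset.mem_cons, Multiset.mem_singleton, not_or]
    refine ⟨(ne P S ?_).symm, (ne Q S ?_).symm, (ne T S ?_).symm⟩
    · omega
    · omega
    · omega
  · exact ne _ _ (by omega)
  · exact (ne T S (by omega)).symm
  · exact ne T R (by omega)
  · unfold st
    rw [h4, e1, dist2_comm S T, e2, e3, rot3]

theorem lift {A B C : GaussianInt} (hd : Distinct A B C) {Y : St} (h : Stp (st A B C) Y) :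
    ∃ P Q T : GaussianInt, Move {A, B, C} {P, Q, T} ∧ Distinct P Q T ∧ st P Q T = Y := by
  obtain ⟨a, b, c, s, hv, hX, hY⟩ := h
  obtain ⟨P, Q, T, hm, h1, h2, h3, h4⟩ := exists_rep hX
  rw [hm]
  have hd' : Distinct P Q T := by
    rw [distinct_iff, ← hm, ← distinct_iff]
    exact hd
  -- choose signs with `e * sarea = |sarea|`
  obtain ⟨e, he, hes⟩ : ∃ e : ℤ, (e = 1 ∨ e = -1) ∧ e * sarea P Q T = (s : ℤ) := by
    rw [← h4, area2_eq]
    rcases le_total 0 (sarea P Q T) with h | h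
    · exact ⟨1, Or.inl rfl, by rw [one_mul]; omega⟩
    · exact ⟨-1, Or.inr rfl, by omega⟩
  have pa := hv.pa
  have pb := hv.pb
  rcases hY with rfl | ⟨g1, g2, rfl⟩
  · -- plus: sign `-e`
    obtain ⟨R, S, k1, k2, k3⟩ := lift_sign hd' (e := -e) (by rcases he with rfl | rfl <;> simp)
      (a' := a + c + 2 * s) (b' := b + c + 2 * s)
      (by push_cast; rw [h1, h3]; linear_combination (2 : ℤ) * (-hes))
      (by push_cast; rw [h2, h3]; linear_combination (2 : ℤ) * (-hes)) (by omega) (by omega)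
    refine ⟨R, S, T, k1, k2, ?_⟩
    rw [k3, h3]
    congr 1
    rw [neg_mul, hes]
    omega
  · obtain ⟨R, S, k1, k2, k3⟩ := lift_sign hd' he
      (a' := a + c - 2 * s) (b' := b + c - 2 * s)
      (by rw [Nat.cast_sub g1.le]; push_cast; rw [h1, h3]; linear_combination (2 : ℤ) * hes)
      (by rw [Nat.cast_sub g2.le]; push_cast; rw [h2, h3]; linear_combination (2 : ℤ) * hes)
      (by omega) (by omega)
    refine ⟨R, S, T, k1, k2, ?_⟩
    rw [k3, h3]
    congr 1
    rw [hes]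
    unfold df
    omega

theorem sound {A B C : GaussianInt} (hd : Distinct A B C) {c' : Multiset GaussianInt}
    (h : Move {A, B, C} c') :
    ∃ P Q T : GaussianInt, c' = {P, Q, T} ∧ Distinct P Q T ∧ Stp (st A B C) (st P Q T) := by
  obtain ⟨P, Q, T, R, S, hsq, hR, hS, hc, hc'⟩ := h
  have hst : st A B C = st P Q T := st_perm hc
  have hd' : Distinct P Q T := by
    rw [distinct_iff, ← hc, ← distinct_iff]
    exact hd
  rw [hc] at hR hS
  simp only [Multiset.insert_eq_cons, Multiset.mem_cons, Multiset.mem_singleton, not_or] at hR hS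
  obtain ⟨e, he, hR', hS'⟩ := square_iff.1 hsq
  obtain ⟨h1, h2, h3, h4⟩ := move_effect (T := T) he hR' hS'
  have e1 : dist2 R S = dist2 P Q := by exact_mod_cast h1
  have pS := dist2_pos (Ne.symm hS.2.2)
  have pR := dist2_pos (Ne.symm hR.2.2)
  have pRS : R ≠ S := by
    intro h
    have := dist2_pos hd'.1
    rw [← e1, h, dist2_self] at this
    omega
  refine ⟨R, S, T, hc', ⟨pRS, hS.2.2, Ne.symm hR.2.2⟩, ?_⟩
  rw [hst]
  refine ⟨dist2 T P, dist2 Q T, dist2 P Q, area2 P Q T, val_st hd', rfl, ?_⟩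
  have hz : e * sarea P Q T = area2 P Q T ∨ e * sarea P Q T = -(area2 P Q T : ℤ) := by
    rw [area2_eq]
    rcases he with rfl | rfl <;> omega
  have key : st R S T = ({dist2 T S, dist2 T R, dist2 P Q}, area2 R S T) := by
    unfold st
    rw [e1, dist2_comm S T, rot3]
  rw [key, h4]
  rcases hz with hz | hz
  · right
    have k2 : ((dist2 T S : ℕ) : ℤ) = dist2 T P + dist2 P Q - 2 * area2 P Q T := by
      rw [h2]; linear_combination (-2 : ℤ) * hz
    have k3 : ((dist2 T R : ℕ) : ℤ) = dist2 Q T + dist2 P Q - 2 * area2 P Q T := by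
      rw [h3]; linear_combination (-2 : ℤ) * hz
    refine ⟨by omega, by omega, ?_⟩
    have q2 : dist2 T S = dist2 T P + dist2 P Q - 2 * area2 P Q T := by omega
    have q3 : dist2 T R = dist2 Q T + dist2 P Q - 2 * area2 P Q T := by omega
    rw [q2, q3, hz]
    congr 1
    unfold df
    omega
  · left
    have k2 : ((dist2 T S : ℕ) : ℤ) = dist2 T P + dist2 P Q + 2 * area2 P Q T := by
      rw [h2]; linear_combination (-2 : ℤ) * hz
    have k3 : ((dist2 T R : ℕ) : ℤ) = dist2 Q T + dist2 P Q + 2 * area2 P Q T := by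
      rw [h3]; linear_combination (-2 : ℤ) * hz
    have q2 : dist2 T S = dist2 T P + dist2 P Q + 2 * area2 P Q T := by omega
    have q3 : dist2 T R = dist2 Q T + dist2 P Q + 2 * area2 P Q T := by omega
    rw [q2, q3, hz]
    congr 1
    omega

/-- the squared sides of the start triangle -/
def sides (A B C : GaussianInt) : ℕ := dist2 C A + dist2 B C + dist2 A B

/-- the number of moves -/
def len (A B C : GaussianInt) (D : ℕ) : ℕ := 4 * sides A B C ^ 2 + 16 * D ^ 2 + 2 * sides A B C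

theorem reach_conn {A B C : GaussianInt} (hd : Distinct A B C) {c' : Multiset GaussianInt}
    (h : ReflTransGen Move {A, B, C} c') :
    ∃ P Q T : GaussianInt, c' = {P, Q, T} ∧ Distinct P Q T ∧ Conn (st A B C) (st P Q T) := by
  induction h with
  | refl => exact ⟨A, B, C, rfl, hd, conn_equiv.refl _⟩
  | tail _ h2 ih =>
    obtain ⟨P, Q, T, rfl, h3, h4⟩ := ih
    obtain ⟨P', Q', T', h5, h6, h7⟩ := sound h3 h2
    exact ⟨P', Q', T', h5, h6, conn_equiv.trans h4 h7.conn⟩

/-- paths of moves of given length -/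
def MPth : ℕ → Multiset GaussianInt → Multiset GaussianInt → Prop
  | 0, c, c' => c = c'
  | n + 1, c, c' => ∃ c'', Move c c'' ∧ MPth n c'' c'

theorem lift_path {n : ℕ} {A B C : GaussianInt} (hd : Distinct A B C) {Y : St}
    (h : Pth Stp n (st A B C) Y) : ∃ P Q T : GaussianInt, MPth n {A, B, C} {P, Q, T} ∧
      Distinct P Q T ∧ st P Q T = Y := by
  induction n generalizing A B C with
  | zero => exact ⟨A, B, C, rfl, hd, h⟩
  | succ n ih =>
    obtain ⟨Z, h1, h2⟩ := h
    obtain ⟨P, Q, T, h3, h4, rfl⟩ := lift hd h1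
    obtain ⟨P', Q', T', h5, h6, h7⟩ := ih h4 h2
    exact ⟨P', Q', T', ⟨_, h3, h5⟩, h6, h7⟩

theorem mpth_reach {n : ℕ} {c c' : Multiset GaussianInt} (h : MPth n c c') :
    ReflTransGen Move c c' := by
  induction n generalizing c with
  | zero =>
    have : c = c' := h
    rw [this]
  | succ n ih =>
    obtain ⟨c'', h1, h2⟩ := h
    exact ReflTransGen.head h1 (ih h2)

/-- If an area occurs, it occurs after a bounded number of moves. -/
theorem occurs_iff {A B C : GaussianInt} (hd : Distinct A B C) (D : ℕ) :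
    Occurs A B C D ↔ ∃ n ≤ len A B C D, ∃ Y : St, Pth Stp n (st A B C) Y ∧ Y.2 = D := by
  constructor
  · rintro ⟨P, Q, T, h, hD⟩
    obtain ⟨P', Q', T', h1, h2, h3⟩ := reach_conn hd h
    have e := st_perm h1
    obtain ⟨n, hn, hp⟩ := short (val_st h2) h3
    have hD' : area2 P' Q' T' = D := by
      rw [← hD]
      exact (congrArg Prod.snd e).symm
    refine ⟨n, ?_, _, hp, hD'⟩
    rw [hD'] at hn
    have : sg (st A B C) = sides A B C := by
      unfold st
      rw [sg_mk]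
      rfl
    rw [this] at hn
    exact hn
  · rintro ⟨n, -, Y, hp, hD⟩
    obtain ⟨P, Q, T, h1, h2, rfl⟩ := lift_path hd hp
    exact ⟨P, Q, T, mpth_reach h1, hD⟩

end Pool.Agent.FleaC
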