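import Pool.Agent.FleaC.Box

/-!
# The largest missed area: approximation from below, and computability
-/

set_option autoImplicit false

namespace Pool.Agent.FleaC

open Primrec

theorem seq_of_mpth {n : ℕ} {c c' : Multiset GaussianInt} (h : MPth n c c') :
    ∃ m : ℕ → Multiset GaussianInt, m 0 = c ∧ (∀ i < n, Move (m i) (m (i + 1))) ∧ m n = c' := by
  induction n generalizing c with
  | zero => exact ⟨fun _ => c, rfl, fun i hi => absurd hi (Nat.not_lt_zero i), h⟩
  | succ n ih =>
    obtain ⟨c'', h1, h2⟩ := h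
    obtain ⟨m, h3, h4, h5⟩ := ih h2
    refine ⟨fun i => Nat.casesOn i c m, rfl, ?_, h5⟩
    intro i hi
    rcases i with _ | i
    · change Move c (m 0)
      rw [h3]
      exact h1
    · exact h4 i (by omega)

/-- If an area occurs, it occurs after a bounded number of moves. -/
theorem occurs_moves {A B C : GaussianInt} (hd : Distinct A B C) {D : ℕ} (h : Occurs A B C D) :
    ∃ n ≤ 4 * (dist2 A B + dist2 B C + dist2 C A) ^ 2 + 16 * D ^ 2 +
      2 * (dist2 A B + dist2 B C + dist2 C A), ∃ m : ℕ → Multiset GaussianInt,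
        m 0 = {A, B, C} ∧ (∀ i < n, Move (m i) (m (i + 1))) ∧
          ∃ P Q T : GaussianInt, m n = {P, Q, T} ∧ area2 P Q T = D := by
  obtain ⟨n, hn, Y, hp, hD⟩ := (occurs_iff hd D).1 h
  obtain ⟨P, Q, T, h1, -, rfl⟩ := lift_path hd hp
  obtain ⟨m, h2, h3, h4⟩ := seq_of_mpth h1
  refine ⟨n, ?_, m, h2, h3, P, Q, T, h4, hD⟩
  have e : sides A B C = dist2 A B + dist2 B C + dist2 C A := by
    unfold sides
    omega
  unfold len at hn
  rw [e] at hn
  exact hn

open Classical in
/-- the largest `D ≤ t` which is missed by an admissible triangle with sides at most `N`, or `0` -/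
noncomputable def g2 (deg : Bool) (N t : ℕ) : ℕ := Nat.findGreatest (Bad deg N) t

theorem pr_g2 (deg : Bool) : Primrec₂ (g2 deg) := by
  classical
  have h1 : PrimrecRel (fun (x : ℕ × ℕ) (D : ℕ) => Bad deg x.1 D) :=
    PrimrecPred.primrecRel ((pr_bad deg).comp ((fst.comp fst).pair snd))
  have h2 := Primrec.nat_findGreatest (f := fun x : ℕ × ℕ => x.2)
    (p := fun (x : ℕ × ℕ) (D : ℕ) => Bad deg x.1 D) snd h1
  apply Primrec₂.mk
  refine h2.of_eq ?_
  intro x
  unfold g2
  congr

theorem g2_mono (deg : Bool) (N : ℕ) : Monotone (g2 deg N) := by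
  classical
  intro s t h
  unfold g2
  exact Nat.findGreatest_mono_right _ h

theorem bad_le {deg : Bool} (hC : ConjC deg) {N D : ℕ} (h : Bad deg N D) : D ≤ f2 deg N :=
  le_csSup (bad_finite hC N).bddAbove h

theorem f2_bad {deg : Bool} (hC : ConjC deg) {N : ℕ} (h : f2 deg N ≠ 0) : Bad deg N (f2 deg N) := by
  have hne : {D | Bad deg N D}.Nonempty := by
    by_contra hcon
    rw [Set.not_nonempty_iff_eq_empty] at hcon
    apply h
    change sSup {D | Bad deg N D} = 0
    rw [hcon]
    exact csSup_empty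
  exact Nat.sSup_mem hne (bad_finite hC N).bddAbove

theorem g2_le {deg : Bool} (hC : ConjC deg) (N t : ℕ) : g2 deg N t ≤ f2 deg N := by
  classical
  rcases Nat.eq_zero_or_pos (g2 deg N t) with h | h
  · omega
  · exact bad_le hC (Nat.findGreatest_of_ne_zero (P := Bad deg N) (n := t) rfl h.ne')

theorem g2_eq {deg : Bool} (hC : ConjC deg) {N t : ℕ} (h : f2 deg N ≤ t) :
    g2 deg N t = f2 deg N := by
  classical
  refine le_antisymm (g2_le hC N t) ?_
  rcases Nat.eq_zero_or_pos (f2 deg N) with h0 | h0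
  · omega
  · exact Nat.le_findGreatest h (f2_bad hC h0.ne')

theorem computable_iff_bounded {deg : Bool} (hC : ConjC deg) :
    Computable (f2 deg) ↔ ∃ h : ℕ → ℕ, Computable h ∧ ∀ N, f2 deg N ≤ h N := by
  constructor
  · intro h
    exact ⟨f2 deg, h, fun N => le_rfl⟩
  · rintro ⟨h, hc, hN⟩
    have h1 : Computable (fun N => g2 deg N (h N)) := (pr_g2 deg).to_comp.comp Computable.id hc
    exact h1.of_eq fun N => g2_eq hC (hN N)

theorem primrec_iff_bounded {deg : Bool} (hC : ConjC deg) :
    Primrec (f2 deg) ↔ ∃ h : ℕ → ℕ, Primrec h ∧ ∀ N, f2 deg N ≤ h N := by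
  constructor
  · intro h
    exact ⟨f2 deg, h, fun N => le_rfl⟩
  · rintro ⟨h, hc, hN⟩
    have h1 : Primrec (fun N => g2 deg N (h N)) := (pr_g2 deg).comp Primrec.id hc
    exact h1.of_eq fun N => g2_eq hC (hN N)

/-- `C` and a positive answer together, without hypotheses -/
theorem effective_iff (deg : Bool) : (ConjC deg ∧ Computable (f2 deg)) ↔
    ∃ h : ℕ → ℕ, Computable h ∧ ∀ N D, Bad deg N D → D ≤ h N := by
  constructor
  · rintro ⟨hC, hf⟩
    exact ⟨f2 deg, hf, fun N D h => bad_le hC h⟩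
  · rintro ⟨h, hc, hN⟩
    have hC : ConjC deg := by
      intro A B C hA
      set N := dist2 A B + dist2 B C + dist2 C A with hNdef
      have hs : SidesLe N A B C := by
        have h1 : N ≤ N ^ 2 := Nat.le_self_pow (by norm_num) N
        refine ⟨?_, ?_, ?_⟩ <;> omega
      refine (Set.finite_Iic (h N)).subset fun D hD => ?_
      exact hN N D ⟨A, B, C, hA, hs, hD⟩
    refine ⟨hC, (computable_iff_bounded hC).2 ⟨h, hc, fun N => ?_⟩⟩
    rcases Nat.eq_zero_or_pos (f2 deg N) with h0 | h0
    · omega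
    · exact hN N _ (f2_bad hC h0.ne')

end Pool.Agent.FleaC
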