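import Pool.Agent.FleaC.Run

/-!
# The occurrence of an area is a primitive recursive predicate
-/

set_option autoImplicit false

namespace Pool.Agent.FleaC

open Primrec

theorem pr_exl {α β : Type} [Primcodable α] [Primcodable β] {f : α → List β} {p : α → β → Prop}
    (hf : Primrec f) (hp : PrimrecRel p) : PrimrecPred fun a => ∃ x ∈ f a, p a x := by
  have h1 : PrimrecRel (fun (x : β) (a : α) => p a x) := hp.comp₂ Primrec₂.right Primrec₂.left
  exact (h1.exists_mem_list).comp hf Primrec.id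

theorem pr_ex {α : Type} [Primcodable α] {f : α → ℕ} {p : α → ℕ → Prop} (hf : Primrec f)
    (hp : PrimrecRel p) : PrimrecPred fun a => ∃ x < f a, p a x := by
  refine (pr_exl (list_range.comp hf) hp).of_eq ?_
  intro a
  simp only [List.mem_range]

/-- the point with the natural coordinates `p` -/
def pt (p : ℕ × ℕ) : GaussianInt := ⟨p.1, p.2⟩

/-- triangles with natural coordinates -/
abbrev Tri : Type := (ℕ × ℕ) × (ℕ × ℕ) × (ℕ × ℕ)

theorem dist2_pt (p q : ℕ × ℕ) :
    dist2 (pt p) (pt q) = df p.1 q.1 * df p.1 q.1 + df p.2 q.2 * df p.2 q.2 := by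
  have h : ((dist2 (pt p) (pt q) : ℕ) : ℤ) =
      ((df p.1 q.1 * df p.1 q.1 + df p.2 q.2 * df p.2 q.2 : ℕ) : ℤ) := by
    rw [dist2_cast]
    push_cast
    rw [← pow_two, ← pow_two, df_sq, df_sq]
    change ((q.1 : ℤ) - p.1) ^ 2 + ((q.2 : ℤ) - p.2) ^ 2 = _
    ring
  exact_mod_cast h

theorem area2_pt (p q t : ℕ × ℕ) :
    area2 (pt p) (pt q) (pt t) =
      df (q.1 * t.2 + q.2 * p.1 + p.2 * t.1) (q.1 * p.2 + p.1 * t.2 + q.2 * t.1) := by
  have h : ((area2 (pt p) (pt q) (pt t) : ℕ) : ℤ) =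
      ((df (q.1 * t.2 + q.2 * p.1 + p.2 * t.1) (q.1 * p.2 + p.1 * t.2 + q.2 * t.1) : ℕ) : ℤ) := by
    rw [df_cast, area2_eq, Int.natCast_natAbs]
    unfold sarea pt
    push_cast
    congr 1
    ring
  exact_mod_cast h

theorem pr_df {α : Type} [Primcodable α] {f g : α → ℕ} (hf : Primrec f) (hg : Primrec g) :
    Primrec fun a => df (f a) (g a) :=
  nat_add.comp (nat_sub.comp hf hg) (nat_sub.comp hg hf)

theorem pr_dist {α : Type} [Primcodable α] {f g : α → ℕ × ℕ} (hf : Primrec f) (hg : Primrec g) :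
    Primrec fun a => dist2 (pt (f a)) (pt (g a)) := by
  have h1 := pr_df (fst.comp hf) (fst.comp hg)
  have h2 := pr_df (snd.comp hf) (snd.comp hg)
  refine (nat_add.comp (nat_mul.comp h1 h1) (nat_mul.comp h2 h2)).of_eq ?_
  intro a
  exact (dist2_pt _ _).symm

theorem pr_area {α : Type} [Primcodable α] {f g h : α → ℕ × ℕ} (hf : Primrec f) (hg : Primrec g)
    (hh : Primrec h) : Primrec fun a => area2 (pt (f a)) (pt (g a)) (pt (h a)) := by
  have f1 := fst.comp hf
  have f2 := snd.comp hf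
  have g1 := fst.comp hg
  have g2 := snd.comp hg
  have h1 := fst.comp hh
  have h2 := snd.comp hh
  refine (pr_df (nat_add.comp (nat_add.comp (nat_mul.comp g1 h2) (nat_mul.comp g2 f1))
    (nat_mul.comp f2 h1)) (nat_add.comp (nat_add.comp (nat_mul.comp g1 f2) (nat_mul.comp f1 h2))
    (nat_mul.comp g2 h1))).of_eq ?_
  intro a
  exact (area2_pt _ _ _).symm

theorem pr_rot : Primrec rot :=
  (fst.comp snd).pair ((fst.comp (snd.comp snd)).pair (fst.pair (snd.comp (snd.comp snd))))

theorem pr_pl : Primrec pl := by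
  have p : Primrec (fun t : T4 => t.1) := fst
  have q : Primrec (fun t : T4 => t.2.1) := fst.comp snd
  have r : Primrec (fun t : T4 => t.2.2.1) := fst.comp (snd.comp snd)
  have s : Primrec (fun t : T4 => t.2.2.2) := snd.comp (snd.comp snd)
  have s2 : Primrec (fun t : T4 => 2 * t.2.2.2) := nat_mul.comp (Primrec.const 2) s
  exact (nat_add.comp (nat_add.comp p r) s2).pair ((nat_add.comp (nat_add.comp q r) s2).pair
    (r.pair (nat_add.comp s r)))

theorem pr_mi : Primrec mi := by
  have p : Primrec (fun t : T4 => t.1) := fst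
  have q : Primrec (fun t : T4 => t.2.1) := fst.comp snd
  have r : Primrec (fun t : T4 => t.2.2.1) := fst.comp (snd.comp snd)
  have s : Primrec (fun t : T4 => t.2.2.2) := snd.comp (snd.comp snd)
  have s2 : Primrec (fun t : T4 => 2 * t.2.2.2) := nat_mul.comp (Primrec.const 2) s
  exact Primrec.ite ((nat_lt.comp s2 (nat_add.comp p r)).and (nat_lt.comp s2 (nat_add.comp q r)))
    ((nat_sub.comp (nat_add.comp p r) s2).pair ((nat_sub.comp (nat_add.comp q r) s2).pair
    (r.pair (nat_add.comp (nat_sub.comp r s) (nat_sub.comp s r))))) Primrec.id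

theorem pr_stp {α : Type} [Primcodable α] {f : α → ℕ} {g : α → T4} (hf : Primrec f)
    (hg : Primrec g) : Primrec fun a => stp (f a) (g a) := by
  have e : ∀ n : ℕ, PrimrecPred (fun a => f a = n) := fun n => Primrec.eq.comp hf (Primrec.const n)
  have r1 := pr_rot.comp hg
  have r2 := pr_rot.comp r1
  exact Primrec.ite (e 0) (pr_pl.comp hg) (Primrec.ite (e 1) (pr_mi.comp hg)
    (Primrec.ite (e 2) (pr_pl.comp r1) (Primrec.ite (e 3) (pr_mi.comp r1)
    (Primrec.ite (e 4) (pr_pl.comp r2) (pr_mi.comp r2)))))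

theorem pr_drive : Primrec drive :=
  (nat_div.comp fst (Primrec.const 6)).pair
    (pr_stp (nat_mod.comp fst (Primrec.const 6)) snd)

theorem pr_pow {α : Type} [Primcodable α] {f g : α → ℕ} (hf : Primrec f) (hg : Primrec g) :
    Primrec fun a => f a ^ g a :=
  (Primrec₂.unpaired'.1 Nat.Primrec.pow).comp hf hg

/-- the areas of the configurations reached from ordered states -/
theorem pr_code {α : Type} [Primcodable α] {t : α → T4} {D L : α → ℕ} (ht : Primrec t)
    (hD : Primrec D) (hL : Primrec L) :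
    PrimrecPred fun a => ∃ code < 6 ^ L a, ∃ k < L a + 1,
      (drive^[k] (code, t a)).2.2.2.2 = D a := by
  have hit : Primrec (fun x : (α × ℕ) × ℕ => drive^[x.2] (x.1.2, t x.1.1)) :=
    nat_iterate snd ((snd.comp fst).pair (ht.comp (fst.comp fst))) (pr_drive.comp₂ Primrec₂.right)
  have h1 : PrimrecPred (fun x : (α × ℕ) × ℕ => (drive^[x.2] (x.1.2, t x.1.1)).2.2.2.2 = D x.1.1) :=
    Primrec.eq.comp (snd.comp (snd.comp (snd.comp (snd.comp hit)))) (hD.comp (fst.comp fst))
  have h2 : PrimrecRel (fun (x : α × ℕ) (k : ℕ) => (drive^[k] (x.2, t x.1)).2.2.2.2 = D x.1) :=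
    h1.primrecRel
  have h3 : PrimrecPred (fun x : α × ℕ => ∃ k < L x.1 + 1, (drive^[k] (x.2, t x.1)).2.2.2.2 = D x.1) :=
    pr_ex (f := fun x : α × ℕ => L x.1 + 1) (nat_add.comp (hL.comp fst) (Primrec.const 1)) h2
  have h4 : PrimrecRel (fun (a : α) (code : ℕ) => ∃ k < L a + 1,
      (drive^[k] (code, t a)).2.2.2.2 = D a) := h3.primrecRel
  exact pr_ex (f := fun a => 6 ^ L a) (pr_pow (Primrec.const 6) hL) h4

theorem pt_inj {p q : ℕ × ℕ} (h : pt p = pt q) : p = q := by
  have h1 := congrArg Zsqrtd.re h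
  have h2 := congrArg Zsqrtd.im h
  have h1' : (p.1 : ℤ) = q.1 := h1
  have h2' : (p.2 : ℤ) = q.2 := h2
  exact Prod.ext (by omega) (by omega)

theorem pr_distinct {α : Type} [Primcodable α] {f g h : α → ℕ × ℕ} (hf : Primrec f)
    (hg : Primrec g) (hh : Primrec h) :
    PrimrecPred fun a => Distinct (pt (f a)) (pt (g a)) (pt (h a)) := by
  have e : ∀ u v : α → ℕ × ℕ, Primrec u → Primrec v →
      PrimrecPred (fun a => pt (u a) ≠ pt (v a)) := by
    intro u v hu hv
    refine (Primrec.eq.comp hu hv).not.of_eq ?_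
    intro a
    exact not_congr ⟨fun h => congrArg pt h, pt_inj⟩
  exact (e f g hf hg).and ((e g h hg hh).and (e h f hh hf))

theorem pr_occ {α : Type} [Primcodable α] {f g h : α → ℕ × ℕ} {D : α → ℕ} (hf : Primrec f)
    (hg : Primrec g) (hh : Primrec h) (hD : Primrec D) :
    PrimrecPred fun a => Distinct (pt (f a)) (pt (g a)) (pt (h a)) ∧
      Occurs (pt (f a)) (pt (g a)) (pt (h a)) (D a) := by
  have d1 := pr_dist hh hf
  have d2 := pr_dist hg hh
  have d3 := pr_dist hf hg
  have ar := pr_area hf hg hh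
  have hs : Primrec (fun a => sides (pt (f a)) (pt (g a)) (pt (h a))) :=
    nat_add.comp (nat_add.comp d1 d2) d3
  have hL : Primrec (fun a => len (pt (f a)) (pt (g a)) (pt (h a)) (D a)) :=
    nat_add.comp (nat_add.comp (nat_mul.comp (Primrec.const 4) (pr_pow hs (Primrec.const 2)))
      (nat_mul.comp (Primrec.const 16) (pr_pow hD (Primrec.const 2))))
      (nat_mul.comp (Primrec.const 2) hs)
  have ht : Primrec (fun a => tr (pt (f a)) (pt (g a)) (pt (h a))) :=
    d1.pair (d2.pair (d3.pair ar))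
  refine ((pr_distinct hf hg hh).and (pr_code ht hD hL)).of_eq ?_
  intro a
  constructor
  · rintro ⟨h1, h2⟩
    exact ⟨h1, (occurs_iff_code h1 _).2 h2⟩
  · rintro ⟨h1, h2⟩
    exact ⟨h1, (occurs_iff_code h1 _).1 h2⟩

end Pool.Agent.FleaC
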