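import Pool.Agent.FleaC.Root

/-!
# A lower bound of fourth order for the largest missed area
-/

set_option autoImplicit false

namespace Pool.Agent.FleaC

open Relation

theorem card_occ {A B C : GaussianInt} (hd : Distinct A B C) {a b c s : ℕ} (hr : Root a b c s)
    (hm : a ≤ 2 * s ∨ b ≤ 2 * s ∨ c ≤ 2 * s) (hst : st A B C = ({a, b, c}, s)) {S : ℕ}
    {F : Finset ℕ} (hF : ∀ D ∈ F, D ≤ S ∧ Occurs A B C D) :
    (F.card : ℝ) ≤ (S : ℝ) ^ 2 * (36 / (s : ℝ) ^ 2) := by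
  classical
  have hsub : F ⊆ (vals S a b c s).filter (· ≤ S) ∪
      ((vals S (a + c - 2 * s) (b + c - 2 * s) c (c - s)).filter (· ≤ S) ∪
      ((vals S (b + a - 2 * s) (c + a - 2 * s) a (a - s)).filter (· ≤ S) ∪
        (vals S (c + b - 2 * s) (a + b - 2 * s) b (b - s)).filter (· ≤ S))) := by
    intro D hD
    obtain ⟨h1, h2⟩ := hF D hD
    have h3 := occ_mem hd hr hst h1 h2
    simp only [Finset.mem_union, Finset.mem_filter] at h3 ⊢
    rcases h3 with h | h | h | h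
    · exact Or.inl ⟨h, h1⟩
    · exact Or.inr (Or.inl ⟨h, h1⟩)
    · exact Or.inr (Or.inr (Or.inl ⟨h, h1⟩))
    · exact Or.inr (Or.inr (Or.inr ⟨h, h1⟩))
  have hr1 : Root b c a s := ⟨hr.val.rot, hr.ps, hr.hb, hr.hc, hr.ha⟩
  have hr2 : Root c a b s := ⟨hr.val.rot.rot, hr.ps, hr.hc, hr.ha, hr.hb⟩
  have c0 := (card_root hr S S).resolve_right (fun h => h hm)
  have c1 := card_side hr S S
  have c2 := card_side hr1 S S
  have c3 := card_side hr2 S S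
  have h0 := (Finset.card_le_card hsub).trans ((Finset.card_union_le _ _).trans
    (Nat.add_le_add_left ((Finset.card_union_le _ _).trans
      (Nat.add_le_add_left (Finset.card_union_le _ _) _)) _))
  have h1 : (F.card : ℝ) ≤ (((vals S a b c s).filter (· ≤ S)).card : ℝ) +
      ((((vals S (a + c - 2 * s) (b + c - 2 * s) c (c - s)).filter (· ≤ S)).card : ℝ) +
      ((((vals S (b + a - 2 * s) (c + a - 2 * s) a (a - s)).filter (· ≤ S)).card : ℝ) +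
        (((vals S (c + b - 2 * s) (a + b - 2 * s) b (b - s)).filter (· ≤ S)).card : ℝ))) := by
    exact_mod_cast h0
  have e : (S : ℝ) ^ 2 * (36 / (s : ℝ) ^ 2) = 4 * ((S : ℝ) ^ 2 * (9 / (s : ℝ) ^ 2)) := by ring
  rw [e]
  linarith

/-- the first vertex -/
def qA : GaussianInt := ⟨0, 0⟩

/-- the second vertex -/
def qB (k : ℕ) : GaussianInt := ⟨4 * k, 0⟩

/-- the third vertex -/
def qC (k : ℕ) : GaussianInt := ⟨8 * k + 1, 2 * k⟩

theorem q_ab (k : ℕ) : dist2 qA (qB k) = 16 * k ^ 2 := by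
  have h : ((dist2 qA (qB k) : ℕ) : ℤ) = ((16 * k ^ 2 : ℕ) : ℤ) := by
    rw [dist2_cast]
    unfold qA qB
    push_cast
    ring
  exact_mod_cast h

theorem q_bc (k : ℕ) : dist2 (qB k) (qC k) = 20 * k ^ 2 + 8 * k + 1 := by
  have h : ((dist2 (qB k) (qC k) : ℕ) : ℤ) = ((20 * k ^ 2 + 8 * k + 1 : ℕ) : ℤ) := by
    rw [dist2_cast]
    unfold qB qC
    push_cast
    ring
  exact_mod_cast h

theorem q_ca (k : ℕ) : dist2 (qC k) qA = 68 * k ^ 2 + 16 * k + 1 := by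
  have h : ((dist2 (qC k) qA : ℕ) : ℤ) = ((68 * k ^ 2 + 16 * k + 1 : ℕ) : ℤ) := by
    rw [dist2_cast]
    unfold qA qC
    push_cast
    ring
  exact_mod_cast h

theorem q_area (k : ℕ) : area2 qA (qB k) (qC k) = 8 * k ^ 2 := by
  have h : sarea qA (qB k) (qC k) = ((8 * k ^ 2 : ℕ) : ℤ) := by
    unfold sarea qA qB qC
    push_cast
    ring
  rw [area2_eq, h]
  exact Int.natAbs_natCast _

theorem q_distinct {k : ℕ} (hk : 2 ≤ k) : Distinct qA (qB k) (qC k) := by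
  refine ⟨?_, ?_, ?_⟩
  · intro h
    have := congrArg Zsqrtd.re h
    simp only [qA, qB] at this
    omega
  · intro h
    have := congrArg Zsqrtd.re h
    simp only [qC, qB] at this
    omega
  · intro h
    have := congrArg Zsqrtd.re h
    simp only [qA, qC] at this
    omega

theorem q_prim (k : ℕ) : Primitive qA (qB k) (qC k) := by
  rintro v c hc ⟨h1, h2, h3⟩
  obtain ⟨x, hx⟩ : c ∣ (qB k - v) - (qA - v) := dvd_sub h2 h1
  obtain ⟨y, hy⟩ : c ∣ (qC k - v) - (qA - v) - 2 * ((qB k - v) - (qA - v)) :=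
    dvd_sub (dvd_sub h3 h1) ((dvd_sub h2 h1).mul_left 2)
  have e1 : (qB k - v) - (qA - v) = ⟨4 * k, 0⟩ := by
    apply Zsqrtd.ext
    · simp [qA, qB]
    · simp [qA, qB]
  have e2 : (qC k - v) - (qA - v) - 2 * ((qB k - v) - (qA - v)) = ⟨1, 2 * k⟩ := by
    apply Zsqrtd.ext
    · simp [qA, qB, qC]
      ring
    · simp [qA, qB, qC]
  rw [e1] at hx
  rw [e2] at hy
  have n1 := congrArg Zsqrtd.norm hx
  have n2 := congrArg Zsqrtd.norm hy
  rw [Zsqrtd.norm_mul] at n1 n2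
  have m1 : (16 : ℤ) * k ^ 2 = c.norm * x.norm := by
    rw [← n1, Zsqrtd.norm_def]
    ring
  have m2 : (1 : ℤ) + 4 * k ^ 2 = c.norm * y.norm := by
    rw [← n2, Zsqrtd.norm_def]
    ring
  have m3 : (1 : ℤ) = c.norm * (y.norm - k ^ 2 * (4 * y.norm - x.norm)) := by
    linear_combination m2 - (k : ℤ) ^ 2 * (4 * m2 - m1)
  have hu : IsUnit c.norm := IsUnit.of_mul_eq_one _ m3.symm
  rcases Int.isUnit_iff.1 hu with h | h <;> omega

theorem q_root {k : ℕ} (hk : 2 ≤ k) :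
    Root (68 * k ^ 2 + 16 * k + 1) (20 * k ^ 2 + 8 * k + 1) (16 * k ^ 2) (8 * k ^ 2) := by
  have hv := val_st (q_distinct hk)
  rw [q_ab, q_bc, q_ca, q_area] at hv
  have h4 : 1 ≤ k ^ 2 := Nat.one_le_pow _ _ (by omega)
  refine ⟨hv, ?_, ?_, ?_, ?_⟩ <;> omega

theorem q_missed {k j : ℕ} (hk : 2 ≤ k) (hj : 1 ≤ j) (hjk : 9 * j < k ^ 4) :
    ∃ D : ℕ, D % 2 = 1 ∧ 2 * j + 1 ≤ D ∧ D ≤ 4 * j ∧ ¬ Occurs qA (qB k) (qC k) D := by
  by_contra hcon
  push Not at hcon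
  have hst : st qA (qB k) (qC k) = ({68 * k ^ 2 + 16 * k + 1, 20 * k ^ 2 + 8 * k + 1, 16 * k ^ 2},
      8 * k ^ 2) := by
    unfold st
    rw [q_ab, q_bc, q_ca, q_area]
  have h := card_occ (q_distinct hk) (q_root hk) (Or.inr (Or.inr (by omega))) hst (S := 4 * j)
    (F := (Finset.range j).image fun i => 2 * j + 1 + 2 * i) (by
      intro D hD
      obtain ⟨i, hi, rfl⟩ := Finset.mem_image.1 hD
      rw [Finset.mem_range] at hi
      exact ⟨by omega, hcon _ (by omega) (by omega) (by omega)⟩)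
  rw [Finset.card_image_of_injective _ (fun x y hxy => by simpa using hxy), Finset.card_range] at h
  have pk : (0 : ℝ) < k := by exact_mod_cast (by omega : 0 < k)
  have pj : (0 : ℝ) < j := by exact_mod_cast (by omega : 0 < j)
  have hjk' : 9 * (j : ℝ) < (k : ℝ) ^ 4 := by exact_mod_cast hjk
  have e : (((4 * j : ℕ) : ℝ)) ^ 2 * (36 / ((8 * k ^ 2 : ℕ) : ℝ) ^ 2) =
      9 * (j : ℝ) ^ 2 / (k : ℝ) ^ 4 := by
    push_cast
    field_simp
    ring
  rw [e, le_div_iff₀ (by positivity)] at h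
  nlinarith

theorem quartic (N : ℕ) (hN : 18 ≤ N) : ∃ A B C : GaussianInt, Adm false A B C ∧
    SidesLe N A B C ∧ ∃ D : ℕ, Missed A B C D ∧ D % 2 = 1 ∧ N ^ 4 ≤ 180000 * D := by
  obtain ⟨k, hk, h9, h13⟩ : ∃ k : ℕ, 2 ≤ k ∧ 9 * k ≤ N ∧ N ≤ 13 * k :=
    ⟨N / 9, by omega, by omega, by omega⟩
  have h16 : 16 ≤ k ^ 4 := by
    calc 16 = 2 ^ 4 := by norm_num
      _ ≤ k ^ 4 := Nat.pow_le_pow_left hk 4
  obtain ⟨j, hj, hj1, hj2⟩ : ∃ j : ℕ, 1 ≤ j ∧ 9 * j < k ^ 4 ∧ k ^ 4 ≤ 9 * j + 9 :=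
    ⟨(k ^ 4 - 1) / 9, by omega, by omega, by omega⟩
  obtain ⟨D, hD1, hD2, hD3, hD4⟩ := q_missed hk hj hj1
  have hN2 : 81 * k ^ 2 ≤ N ^ 2 := by
    calc 81 * k ^ 2 = (9 * k) ^ 2 := by ring
      _ ≤ N ^ 2 := Nat.pow_le_pow_left h9 2
  have hkk : 2 * k ≤ k ^ 2 := by nlinarith
  have hk4 : 1 ≤ k ^ 2 := Nat.one_le_pow _ _ (by omega)
  refine ⟨qA, qB k, qC k, ⟨q_distinct hk, q_prim k, Or.inr ?_⟩, ⟨?_, ?_, ?_⟩, D,
    ⟨hD4, fun n hn => by omega⟩, hD1, ?_⟩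
  · rw [q_area]
    omega
  · rw [q_ab]
    omega
  · rw [q_bc]
    omega
  · rw [q_ca]
    omega
  · calc N ^ 4 ≤ (13 * k) ^ 4 := Nat.pow_le_pow_left h13 4
      _ = 28561 * k ^ 4 := by ring
      _ ≤ 28561 * (9 * j + 9) := Nat.mul_le_mul_left _ hj2
      _ ≤ 180000 * D := by omega

end Pool.Agent.FleaC
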