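import Pool.Agent.FleaC.Tree
import Pool.Agent.FleaC.Main

/-!
# The orbit of a root, and the number of the areas which occur
-/

set_option autoImplicit false

namespace Pool.Agent.FleaC

open Relation

/-- a root of positive area: no squared side is smaller than `2 s` -/
structure Root (a b c s : ℕ) : Prop where
  val : Val a b c s
  ps : 1 ≤ s
  ha : 2 * s ≤ a
  hb : 2 * s ≤ b
  hc : 2 * s ≤ c

theorem big_irr {a b c s : ℕ} (ha : 2 * s ≤ a) (hb : 2 * s ≤ b) (hc : 2 * s ≤ c) (Y : St) :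
    ¬ Desc ({a, b, c}, s) Y := by
  rintro ⟨a', b', c', s', hv, h1, h2, h3, hX, -⟩
  have hs : s = s' := congrArg Prod.snd hX
  subst hs
  have hm : ({a, b, c} : Multiset ℕ) = {a', b', c'} := congrArg Prod.fst hX
  rcases ms3 hm with ⟨rfl, rfl, rfl⟩ | ⟨rfl, rfl, rfl⟩ | ⟨rfl, rfl, rfl⟩ | ⟨rfl, rfl, rfl⟩ |
    ⟨rfl, rfl, rfl⟩ | ⟨rfl, rfl, rfl⟩ <;> omega

theorem iso_irr {s : ℕ} (Y : St) : ¬ Desc ({s, 2 * s, s}, s) Y := by
  rintro ⟨a', b', c', s', hv, h1, h2, h3, hX, -⟩
  have hs : s = s' := congrArg Prod.snd hX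
  subst hs
  have hm : ({s, 2 * s, s} : Multiset ℕ) = {a', b', c'} := congrArg Prod.fst hX
  rcases ms3 hm with ⟨e1, e2, e3⟩ | ⟨e1, e2, e3⟩ | ⟨e1, e2, e3⟩ | ⟨e1, e2, e3⟩ |
    ⟨e1, e2, e3⟩ | ⟨e1, e2, e3⟩ <;> omega

theorem irr_eq {X R : St} (hX : ∀ Y, ¬ Desc X Y) (hR : ∀ Y, ¬ Desc R Y) (h : Conn X R) :
    X = R := by
  obtain ⟨W, h1, h2⟩ := h
  have e1 : X = W := by
    rcases ReflTransGen.cases_head h1 with h | ⟨Z, h, -⟩
    · exact h
    · exact absurd h (hX Z)
  have e2 : R = W := by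
    rcases ReflTransGen.cases_head h2 with h | ⟨Z, h, -⟩
    · exact h
    · exact absurd h (hR Z)
  rw [e1, e2]

theorem exists_min {a b c s : ℕ} (hv : Val a b c s) : ∃ a' b' c' : ℕ, Val a' b' c' s ∧
    ({a, b, c} : Multiset ℕ) = {a', b', c'} ∧ c' ≤ a' ∧ c' ≤ b' ∧ a' + b' + c' = a + b + c := by
  have e1 : ({a, b, c} : Multiset ℕ) = {c, a, b} := rot3' a b c
  have e2 : ({a, b, c} : Multiset ℕ) = {b, c, a} := by rw [rot3' b c a]
  by_cases h1 : c ≤ a ∧ c ≤ b
  · exact ⟨a, b, c, hv, rfl, h1.1, h1.2, rfl⟩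
  · by_cases h2 : b ≤ a ∧ b ≤ c
    · exact ⟨c, a, b, hv.rot.rot, e1, h2.2, h2.1, by omega⟩
    · exact ⟨b, c, a, hv.rot, e2, by omega, by omega, by omega⟩

/-- a step of the root downwards and up again -/
def Side (R Z : St) : Prop :=
  ∃ a b c s : ℕ, R = ({a, b, c}, s) ∧ Z = ({a + c - 2 * s, b + c - 2 * s, c}, c - s)

theorem orbit {a0 b0 c0 s0 : ℕ} (hr : Root a0 b0 c0 s0) (m : ℕ) : ∀ a b c s : ℕ,
    a + b + c ≤ m → Val a b c s → Conn ({a, b, c}, s) ({a0, b0, c0}, s0) →
    ∃ Z : St, (Z = ({a0, b0, c0}, s0) ∨ Side ({a0, b0, c0}, s0) Z) ∧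
      ReflTransGen Up Z ({a, b, c}, s) := by
  induction m with
  | zero =>
    intro a b c s hm hv
    have := hv.pa
    omega
  | succ m ih =>
    intro a' b' c' s hm hv' hc
    obtain ⟨a, b, c, hv, he, hca, hcb, hsum⟩ := exists_min hv'
    rw [he] at hc ⊢
    have hR : ∀ Y, ¬ Desc ({a0, b0, c0}, s0) Y := big_irr hr.ha hr.hb hr.hc
    rcases le_or_gt (2 * s) c with h1 | h1
    · -- a root
      have := irr_eq (big_irr (h1.trans hca) (h1.trans hcb) h1) hR hc
      exact ⟨_, Or.inl rfl, by rw [this]⟩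
    · have k1 := two_s_le hv
      have k2 := two_s_le hv.swap
      have pc := hv.pc
      have side : ∀ x y : ℕ, Val x y c s → c ≤ x → x + c = 2 * s →
          ({x, y, c} : Multiset ℕ) = {a, b, c} → False := by
        intro x y hxy hcx hx hms
        have her := hxy.her
        have hx' : (x : ℤ) + c = 2 * s := by exact_mod_cast hx
        have e0 : ((x : ℤ) - c) ^ 2 + (x + c - y) ^ 2 = 0 := by
          have : ((x : ℤ) + c) ^ 2 = (2 * s) ^ 2 := by rw [hx']
          linarith
        have e1 : ((x : ℤ) - c) ^ 2 = 0 := by nlinarith [sq_nonneg ((x : ℤ) - c), sq_nonneg ((x : ℤ) + c - y)]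
        have e2 : ((x : ℤ) + c - y) ^ 2 = 0 := by nlinarith [sq_nonneg ((x : ℤ) - c), sq_nonneg ((x : ℤ) + c - y)]
        have e3 : (x : ℤ) - c = 0 := by exact pow_eq_zero_iff (two_ne_zero) |>.1 e1
        have e4 : (x : ℤ) + c - y = 0 := by exact pow_eq_zero_iff (two_ne_zero) |>.1 e2
        have hxs : x = s := by omega
        have hcs : c = s := by omega
        have hys : y = 2 * s := by omega
        have heq : (({a, b, c} : Multiset ℕ), s) = (({a0, b0, c0} : Multiset ℕ), s0) := by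
          refine irr_eq ?_ hR hc
          rw [← hms, hxs, hcs, hys]
          exact iso_irr
        have hs0 : s = s0 := congrArg Prod.snd heq
        have hmm : ({a, b, c} : Multiset ℕ) = {a0, b0, c0} := congrArg Prod.fst heq
        have r1 := hr.ha
        have r2 := hr.hb
        have r3 := hr.hc
        have r4 := hr.ps
        have hmem : c ∈ ({a0, b0, c0} : Multiset ℕ) := by
          rw [← hmm]
          simp
        simp only [Multiset.insert_eq_cons, Multiset.mem_cons, Multiset.mem_singleton] at hmem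
        omega
      have g1 : 2 * s < a + c := by
        by_contra hcon
        exact side a b hv hca (by omega) rfl
      have g2 : 2 * s < b + c := by
        by_contra hcon
        exact side b a hv.swap hcb (by omega) (rot3 b a c)
      have hdesc : Desc ({a, b, c}, s) ({a + c - 2 * s, b + c - 2 * s, c}, df c s) :=
        ⟨a, b, c, s, hv, h1, g1, g2, rfl, rfl⟩
      have hX : Conn ({a + c - 2 * s, b + c - 2 * s, c}, df c s) ({a0, b0, c0}, s0) :=
        conn_equiv.trans (conn_equiv.symm hdesc.conn) hc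
      have hvX := hv.minus g1 g2
      rcases le_or_gt c s with h2 | h2
      · have hd : df c s = s - c := by unfold df; omega
        rw [hd] at hX hvX
        rcases Nat.eq_or_lt_of_le h2 with h3 | h3
        · -- area zero
          exfalso
          have h4 : s - c = 0 := by omega
          rw [h4] at hX
          have heq := irr_eq (big_irr (by omega) (by omega) (by omega)) hR hX
          have hs0 : 0 = s0 := congrArg Prod.snd heq
          have := hr.ps
          omega
        · obtain ⟨Z, hZ, hZX⟩ := ih _ _ _ _ (by omega) hvX hX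
          refine ⟨Z, hZ, hZX.tail ⟨_, _, _, _, hvX, rfl, ?_⟩⟩
          have e1 : a + c - 2 * s + c + 2 * (s - c) = a := by omega
          have e2 : b + c - 2 * s + c + 2 * (s - c) = b := by omega
          have e3 : s - c + c = s := by omega
          rw [e1, e2, e3]
      · have hd : df c s = c - s := by unfold df; omega
        rw [hd] at hX
        have heq := irr_eq (big_irr (by omega) (by omega) (by omega)) hR hX
        refine ⟨({a, b, c}, s), Or.inr ⟨_, _, _, _, heq.symm, ?_⟩, ReflTransGen.refl⟩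
        have e1 : a + c - 2 * s + c - 2 * (c - s) = a := by omega
        have e2 : b + c - 2 * s + c - 2 * (c - s) = b := by omega
        have e3 : c - (c - s) = s := by omega
        rw [e1, e2, e3]

theorem pot_le {a b c s t : ℕ} (ht : 1 ≤ t) (hs : t ≤ s) (ha : 2 * t ≤ a) (hb : 2 * t ≤ b)
    (hc : 2 * t ≤ c) : pot a b c s ≤ 9 / (t : ℝ) ^ 2 := by
  have pt : (0 : ℝ) < t := by exact_mod_cast ht
  have hs' : (t : ℝ) ≤ s := by exact_mod_cast hs
  have h1 : ∀ x : ℕ, 2 * t ≤ x → 1 / (x : ℝ) ≤ 1 / (2 * t) := fun x hx =>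
    one_div_le_one_div_of_le (by positivity) (by exact_mod_cast hx)
  have h2 : (6 : ℝ) / s ≤ 6 / t := div_le_div_of_nonneg_left (by norm_num) pt hs'
  unfold pot
  calc 6 / (s : ℝ) * (1 / a + 1 / b + 1 / c)
      ≤ 6 / t * (1 / (2 * t) + 1 / (2 * t) + 1 / (2 * t)) :=
        mul_le_mul h2 (by linarith [h1 a ha, h1 b hb, h1 c hc]) (by positivity) (by positivity)
    _ = 9 / (t : ℝ) ^ 2 := by
        field_simp
        ring

theorem card_root {a b c s : ℕ} (hr : Root a b c s) (n S : ℕ) :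
    (((vals n a b c s).filter (· ≤ S)).card : ℝ) ≤ (S : ℝ) ^ 2 * (9 / (s : ℝ) ^ 2) ∨
      ¬ (a ≤ 2 * s ∨ b ≤ 2 * s ∨ c ≤ 2 * s) := by
  by_cases h : a ≤ 2 * s ∨ b ≤ 2 * s ∨ c ≤ 2 * s
  · left
    refine (card_vals hr.val hr.ps h).trans ?_
    exact mul_le_mul_of_nonneg_left (pot_le hr.ps le_rfl hr.ha hr.hb hr.hc) (by positivity)
  · exact Or.inr h

theorem card_side {a b c s : ℕ} (hr : Root a b c s) (n S : ℕ) :
    (((vals n (a + c - 2 * s) (b + c - 2 * s) c (c - s)).filter (· ≤ S)).card : ℝ) ≤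
      (S : ℝ) ^ 2 * (9 / (s : ℝ) ^ 2) := by
  have ha := hr.ha
  have hb := hr.hb
  have hc := hr.hc
  have ps := hr.ps
  have hd : df c s = c - s := by unfold df; omega
  have hv := hr.val.minus (by omega) (by omega)
  rw [hd] at hv
  refine (card_vals hv (by omega) (Or.inr (Or.inr (by omega)))).trans ?_
  exact mul_le_mul_of_nonneg_left (pot_le ps (by omega) (by omega) (by omega) hc) (by positivity)

/-- `D ≤ S` occurs for a root only if it is in one of four trees. -/
theorem occ_mem {A B C : GaussianInt} (hd : Distinct A B C) {a b c s : ℕ} (hr : Root a b c s)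
    (hst : st A B C = ({a, b, c}, s)) {S D : ℕ} (hD : D ≤ S) (ho : Occurs A B C D) :
    D ∈ vals S a b c s ∪ (vals S (a + c - 2 * s) (b + c - 2 * s) c (c - s) ∪
      (vals S (b + a - 2 * s) (c + a - 2 * s) a (a - s) ∪
        vals S (c + b - 2 * s) (a + b - 2 * s) b (b - s))) := by
  obtain ⟨P, Q, T, h, hD'⟩ := ho
  obtain ⟨P', Q', T', h1, h2, h3⟩ := reach_conn hd h
  have e := st_perm h1
  have hD2 : area2 P' Q' T' = D := by
    rw [← hD']
    exact (congrArg Prod.snd e).symm
  rw [hst] at h3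
  have hv := val_st h2
  rw [hD2] at hv
  have hY : st P' Q' T' = ({dist2 T' P', dist2 Q' T', dist2 P' Q'}, D) := by
    unfold st
    rw [hD2]
  rw [hY] at h3
  obtain ⟨Z, hZ, hp⟩ := orbit hr _ _ _ _ _ le_rfl hv (conn_equiv.symm h3)
  rcases hZ with rfl | ⟨a', b', c', s', hR, rfl⟩
  · have := mem_vals hp S a b c s rfl (by
      change D ≤ s + S
      omega)
    exact Finset.mem_union_left _ this
  · have hs : s = s' := congrArg Prod.snd hR
    subst hs
    have hm : ({a, b, c} : Multiset ℕ) = {a', b', c'} := congrArg Prod.fst hR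
    have hk := mem_vals hp S (a' + c' - 2 * s) (b' + c' - 2 * s) c' (c' - s) rfl (by
      change D ≤ c' - s + S
      omega)
    apply Finset.mem_union_right
    rcases ms3 hm with ⟨rfl, rfl, rfl⟩ | ⟨rfl, rfl, rfl⟩ | ⟨rfl, rfl, rfl⟩ | ⟨rfl, rfl, rfl⟩ |
      ⟨rfl, rfl, rfl⟩ | ⟨rfl, rfl, rfl⟩
    · exact Finset.mem_union_left _ hk
    · rw [vals_swap] at hk
      exact Finset.mem_union_right _ (Finset.mem_union_right _ hk)
    · rw [vals_swap] at hk
      exact Finset.mem_union_left _ hk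
    · exact Finset.mem_union_right _ (Finset.mem_union_right _ hk)
    · exact Finset.mem_union_right _ (Finset.mem_union_left _ hk)
    · rw [vals_swap] at hk
      exact Finset.mem_union_right _ (Finset.mem_union_left _ hk)

end Pool.Agent.FleaC
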