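import Pool.Agent.FleaC.Geo

/-!
# Steps on ordered states, driven by a code
-/

set_option autoImplicit false

namespace Pool.Agent.FleaC

open Relation

/-- ordered states: three squared sides and the doubled area -/
abbrev T4 : Type := ℕ × ℕ × ℕ × ℕ

/-- the state of an ordered state -/
def tst (t : T4) : St := ({t.1, t.2.1, t.2.2.1}, t.2.2.2)

/-- rotation -/
def rot (t : T4) : T4 := (t.2.1, t.2.2.1, t.1, t.2.2.2)

/-- the move on the third side away from the third vertex -/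
def pl (t : T4) : T4 :=
  (t.1 + t.2.2.1 + 2 * t.2.2.2, t.2.1 + t.2.2.1 + 2 * t.2.2.2, t.2.2.1, t.2.2.2 + t.2.2.1)

/-- the move on the third side towards the third vertex, if it is allowed -/
def mi (t : T4) : T4 :=
  if 2 * t.2.2.2 < t.1 + t.2.2.1 ∧ 2 * t.2.2.2 < t.2.1 + t.2.2.1 then
    (t.1 + t.2.2.1 - 2 * t.2.2.2, t.2.1 + t.2.2.1 - 2 * t.2.2.2, t.2.2.1,
      (t.2.2.1 - t.2.2.2) + (t.2.2.2 - t.2.2.1))
  else t

/-- the move with number `j` -/
def stp (j : ℕ) (t : T4) : T4 :=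
  if j = 0 then pl t else if j = 1 then mi t else if j = 2 then pl (rot t)
  else if j = 3 then mi (rot t) else if j = 4 then pl (rot (rot t)) else mi (rot (rot t))

theorem tst_rot (t : T4) : tst (rot t) = tst t := by
  obtain ⟨p, q, r, s⟩ := t
  unfold tst rot
  exact congrArg (fun m => (m, s)) (p231 p q r).symm

/-- validity of an ordered state -/
def Vd (t : T4) : Prop := Val t.1 t.2.1 t.2.2.1 t.2.2.2

theorem Vd.rot {t : T4} (h : Vd t) : Vd (rot t) := Val.rot h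

theorem Vd.pl {t : T4} (h : Vd t) : Vd (pl t) ∧ Stp (tst t) (tst (pl t)) := by
  obtain ⟨p, q, r, s⟩ := t
  exact ⟨Val.plus h, p, q, r, s, h, rfl, Or.inl rfl⟩

theorem Vd.mi {t : T4} (h : Vd t) : Vd (mi t) ∧ (mi t = t ∨ Stp (tst t) (tst (mi t))) := by
  obtain ⟨p, q, r, s⟩ := t
  unfold FleaC.mi
  simp only
  split_ifs with h1
  · exact ⟨Val.minus h h1.1 h1.2, Or.inr ⟨p, q, r, s, h, rfl, Or.inr ⟨h1.1, h1.2, rfl⟩⟩⟩
  · exact ⟨h, Or.inl rfl⟩

theorem Vd.stp {t : T4} (h : Vd t) (j : ℕ) :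
    Vd (stp j t) ∧ (tst (stp j t) = tst t ∨ Stp (tst t) (tst (stp j t))) := by
  have key : ∀ t' : T4, Vd t' → tst t' = tst t →
      (Vd (FleaC.pl t') ∧ (tst (FleaC.pl t') = tst t ∨ Stp (tst t) (tst (FleaC.pl t')))) ∧
      (Vd (FleaC.mi t') ∧ (tst (FleaC.mi t') = tst t ∨ Stp (tst t) (tst (FleaC.mi t')))) := by
    intro t' h' e
    refine ⟨⟨h'.pl.1, Or.inr ?_⟩, h'.mi.1, ?_⟩
    · rw [← e]
      exact h'.pl.2
    · rcases h'.mi.2 with h2 | h2
      · left
        rw [h2, e]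
      · right
        rw [← e]
        exact h2
  have k0 := key t h rfl
  have k1 := key (FleaC.rot t) h.rot (tst_rot t)
  have k2 := key (FleaC.rot (FleaC.rot t)) h.rot.rot (by rw [tst_rot, tst_rot])
  unfold FleaC.stp
  split_ifs
  · exact k0.1
  · exact k0.2
  · exact k1.1
  · exact k1.2
  · exact k2.1
  · exact k2.2

theorem swap12 {x y c s : ℕ} : (({x, y, c} : Multiset ℕ), s) = (({y, x, c} : Multiset ℕ), s) := by
  rw [rot3]

/-- a step which uses the third entry of the ordered state -/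
theorem pm_of {p q r s a b c : ℕ} {Y : St} (h : (a = p ∧ b = q ∨ a = q ∧ b = p) ∧ c = r)
    (hY : Y = ({a + c + 2 * s, b + c + 2 * s, c}, s + c) ∨
      (2 * s < a + c ∧ 2 * s < b + c ∧ Y = ({a + c - 2 * s, b + c - 2 * s, c}, df c s))) :
    tst (pl (p, q, r, s)) = Y ∨ tst (mi (p, q, r, s)) = Y := by
  obtain ⟨h1, rfl⟩ := h
  rcases hY with rfl | ⟨g1, g2, rfl⟩
  · left
    rcases h1 with ⟨rfl, rfl⟩ | ⟨rfl, rfl⟩
    · rfl
    · exact swap12
  · right
    unfold mi tst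
    rcases h1 with ⟨rfl, rfl⟩ | ⟨rfl, rfl⟩
    · simp only [g1, g2, and_self, if_true]
      rfl
    · simp only [g1, g2, and_self, if_true]
      exact swap12

theorem realize {t : T4} {Y : St} (h : Stp (tst t) Y) : ∃ j < 6, tst (stp j t) = Y := by
  obtain ⟨p, q, r, s⟩ := t
  obtain ⟨a, b, c, s', -, hX, hY⟩ := h
  have hs : s = s' := congrArg Prod.snd hX
  subst hs
  have hm : ({p, q, r} : Multiset ℕ) = {a, b, c} := congrArg Prod.fst hX
  have e0 : stp 0 (p, q, r, s) = pl (p, q, r, s) := rfl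
  have e1 : stp 1 (p, q, r, s) = mi (p, q, r, s) := rfl
  have e2 : stp 2 (p, q, r, s) = pl (q, r, p, s) := rfl
  have e3 : stp 3 (p, q, r, s) = mi (q, r, p, s) := rfl
  have e4 : stp 4 (p, q, r, s) = pl (r, p, q, s) := rfl
  have e5 : stp 5 (p, q, r, s) = mi (r, p, q, s) := rfl
  have third : c = r → (a = p ∧ b = q ∨ a = q ∧ b = p) → ∃ j < 6, tst (stp j (p, q, r, s)) = Y := by
    intro h1 h2
    rcases pm_of ⟨h2, h1⟩ hY with h3 | h3
    · exact ⟨0, by norm_num, by rw [e0, h3]⟩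
    · exact ⟨1, by norm_num, by rw [e1, h3]⟩
  have first : c = p → (a = q ∧ b = r ∨ a = r ∧ b = q) → ∃ j < 6, tst (stp j (p, q, r, s)) = Y := by
    intro h1 h2
    rcases pm_of ⟨h2, h1⟩ hY with h3 | h3
    · exact ⟨2, by norm_num, by rw [e2, h3]⟩
    · exact ⟨3, by norm_num, by rw [e3, h3]⟩
  have second : c = q → (a = r ∧ b = p ∨ a = p ∧ b = r) → ∃ j < 6, tst (stp j (p, q, r, s)) = Y := by
    intro h1 h2
    rcases pm_of ⟨h2, h1⟩ hY with h3 | h3
    · exact ⟨4, by norm_num, by rw [e4, h3]⟩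
    · exact ⟨5, by norm_num, by rw [e5, h3]⟩
  rcases ms3 hm with ⟨h1, h2, h3⟩ | ⟨h1, h2, h3⟩ | ⟨h1, h2, h3⟩ | ⟨h1, h2, h3⟩ |
    ⟨h1, h2, h3⟩ | ⟨h1, h2, h3⟩
  · exact third h3.symm (Or.inl ⟨h1.symm, h2.symm⟩)
  · exact second h2.symm (Or.inr ⟨h1.symm, h3.symm⟩)
  · exact third h3.symm (Or.inr ⟨h2.symm, h1.symm⟩)
  · exact second h2.symm (Or.inl ⟨h3.symm, h1.symm⟩)
  · exact first h1.symm (Or.inl ⟨h2.symm, h3.symm⟩)
  · exact first h1.symm (Or.inr ⟨h3.symm, h2.symm⟩)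

/-- one step driven by the last digit of a code in base `6` -/
def drive (x : ℕ × T4) : ℕ × T4 := (x.1 / 6, stp (x.1 % 6) x.2)

theorem drive_code {n : ℕ} {t : T4} {Y : St} (h : Pth Stp n (tst t) Y) :
    ∃ code < 6 ^ n, tst (drive^[n] (code, t)).2 = Y := by
  induction n generalizing t with
  | zero => exact ⟨0, by norm_num, h⟩
  | succ n ih =>
    obtain ⟨Z, h1, h2⟩ := h
    obtain ⟨j, hj, rfl⟩ := realize h1
    obtain ⟨code, hc, hY⟩ := ih h2
    refine ⟨j + 6 * code, ?_, ?_⟩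
    · rw [pow_succ]
      omega
    · rw [Function.iterate_succ_apply]
      have e1 : (j + 6 * code) / 6 = code := by omega
      have e2 : (j + 6 * code) % 6 = j := by omega
      have e3 : drive (j + 6 * code, t) = (code, stp j t) := by
        unfold drive
        rw [e1, e2]
      rw [e3, hY]

theorem drive_pth {n : ℕ} {code : ℕ} {t : T4} (h : Vd t) :
    ∃ k ≤ n, Pth Stp k (tst t) (tst (drive^[n] (code, t)).2) := by
  induction n generalizing code t with
  | zero => exact ⟨0, le_rfl, rfl⟩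
  | succ n ih =>
    rw [Function.iterate_succ_apply]
    have hs := h.stp (code % 6)
    obtain ⟨k, hk, hp⟩ := ih (code := code / 6) hs.1
    change ∃ k ≤ n + 1, Pth Stp k (tst t) (tst (drive^[n] (code / 6, stp (code % 6) t)).2)
    rcases hs.2 with h1 | h1
    · rw [h1] at hp
      exact ⟨k, by omega, hp⟩
    · exact ⟨k + 1, by omega, _, h1, hp⟩

/-- the ordered state of a triangle -/
def tr (A B C : GaussianInt) : T4 := (dist2 C A, dist2 B C, dist2 A B, area2 A B C)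

theorem tst_tr (A B C : GaussianInt) : tst (tr A B C) = st A B C := rfl

theorem occurs_iff_code {A B C : GaussianInt} (hd : Distinct A B C) (D : ℕ) :
    Occurs A B C D ↔ ∃ code < 6 ^ len A B C D, ∃ k < len A B C D + 1,
      (drive^[k] (code, tr A B C)).2.2.2.2 = D := by
  rw [occurs_iff hd]
  constructor
  · rintro ⟨n, hn, Y, hp, hD⟩
    rw [← tst_tr] at hp
    obtain ⟨code, hc, hY⟩ := drive_code hp
    refine ⟨code, hc.trans_le (Nat.pow_le_pow_right (by norm_num) hn), n, by omega, ?_⟩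
    rw [← hD, ← hY]
    rfl
  · rintro ⟨code, -, k, hk, hD⟩
    obtain ⟨n, hn, hp⟩ := drive_pth (n := k) (code := code) (t := tr A B C) (val_st hd)
    exact ⟨n, by omega, _, hp, hD⟩

end Pool.Agent.FleaC
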