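import Mathlib

/-!
# States of the three fleas: squared sides and doubled area; confluence of the descent
-/

set_option autoImplicit false

namespace Pool.Agent.FleaC

open Relation

theorem ms2 {α : Type} {b c y z : α} (h : ({b, c} : Multiset α) = {y, z}) :
    (b = y ∧ c = z) ∨ (b = z ∧ c = y) := by
  have hb : b ∈ ({y, z} : Multiset α) := by
    rw [← h]
    simp
  simp only [Multiset.insert_eq_cons, Multiset.mem_cons, Multiset.mem_singleton] at hb
  rcases hb with rfl | rfl
  · left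
    have := (Multiset.cons_inj_right b).1 h
    exact ⟨rfl, Multiset.singleton_inj.1 this⟩
  · right
    rw [Multiset.pair_comm y b] at h
    have := (Multiset.cons_inj_right b).1 h
    exact ⟨rfl, Multiset.singleton_inj.1 this⟩

theorem rot3 {α : Type} (x y z : α) : ({x, y, z} : Multiset α) = {y, x, z} := by
  simp only [Multiset.insert_eq_cons]
  exact Multiset.cons_swap _ _ _

theorem rot3' {α : Type} (x y z : α) : ({x, y, z} : Multiset α) = {z, x, y} := by
  rw [rot3 z x y]
  simp only [Multiset.insert_eq_cons]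
  congr 1
  exact Multiset.pair_comm y z

theorem ms3 {α : Type} {a b c x y z : α} (h : ({a, b, c} : Multiset α) = {x, y, z}) :
    (a = x ∧ b = y ∧ c = z) ∨ (a = x ∧ b = z ∧ c = y) ∨ (a = y ∧ b = x ∧ c = z) ∨
      (a = y ∧ b = z ∧ c = x) ∨ (a = z ∧ b = x ∧ c = y) ∨ (a = z ∧ b = y ∧ c = x) := by
  have ha : a ∈ ({x, y, z} : Multiset α) := by
    rw [← h]
    simp
  simp only [Multiset.insert_eq_cons, Multiset.mem_cons, Multiset.mem_singleton] at ha
  rcases ha with rfl | rfl | rfl
  · have := (Multiset.cons_inj_right a).1 h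
    rcases ms2 this with ⟨h1, h2⟩ | ⟨h1, h2⟩
    · exact Or.inl ⟨rfl, h1, h2⟩
    · exact Or.inr (Or.inl ⟨rfl, h1, h2⟩)
  · rw [rot3 x a z] at h
    have := (Multiset.cons_inj_right a).1 h
    rcases ms2 this with ⟨h1, h2⟩ | ⟨h1, h2⟩
    · exact Or.inr (Or.inr (Or.inl ⟨rfl, h1, h2⟩))
    · exact Or.inr (Or.inr (Or.inr (Or.inl ⟨rfl, h1, h2⟩)))
  · rw [rot3' x y a] at h
    have := (Multiset.cons_inj_right a).1 h
    rcases ms2 this with ⟨h1, h2⟩ | ⟨h1, h2⟩
    · exact Or.inr (Or.inr (Or.inr (Or.inr (Or.inl ⟨rfl, h1, h2⟩))))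
    · exact Or.inr (Or.inr (Or.inr (Or.inr (Or.inr ⟨rfl, h1, h2⟩))))

/-- a state: the three squared sides and the doubled area -/
abbrev St : Type := Multiset ℕ × ℕ

/-- `a`, `b`, `c` are positive and Heron's formula holds -/
structure Val (a b c s : ℕ) : Prop where
  pa : 1 ≤ a
  pb : 1 ≤ b
  pc : 1 ≤ c
  her : 4 * (s : ℤ) ^ 2 = 2 * (a * b + b * c + c * a) - a ^ 2 - b ^ 2 - c ^ 2

/-- the distance of two natural numbers -/
def df (c s : ℕ) : ℕ := (c - s) + (s - c)

theorem df_cast (c s : ℕ) : ((df c s : ℕ) : ℤ) = |(c : ℤ) - s| := by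
  unfold df
  rcases le_total c s with h | h
  · rw [Nat.sub_eq_zero_of_le h, zero_add, Nat.cast_sub h, abs_of_nonpos (by omega)]
    ring
  · rw [Nat.sub_eq_zero_of_le h, add_zero, Nat.cast_sub h, abs_of_nonneg (by omega)]

theorem df_sq (c s : ℕ) : ((df c s : ℕ) : ℤ) ^ 2 = ((c : ℤ) - s) ^ 2 := by
  rw [df_cast, sq_abs]

theorem Val.swap {a b c s : ℕ} (h : Val a b c s) : Val b a c s :=
  ⟨h.pb, h.pa, h.pc, by have := h.her; linarith⟩

theorem Val.rot {a b c s : ℕ} (h : Val a b c s) : Val b c a s :=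
  ⟨h.pb, h.pc, h.pa, by have := h.her; linarith⟩

theorem Val.minus {a b c s : ℕ} (h : Val a b c s) (h1 : 2 * s < a + c) (h2 : 2 * s < b + c) :
    Val (a + c - 2 * s) (b + c - 2 * s) c (df c s) := by
  refine ⟨by omega, by omega, h.pc, ?_⟩
  rw [df_sq, Nat.cast_sub h1.le, Nat.cast_sub h2.le]
  push_cast
  linear_combination h.her

theorem Val.plus {a b c s : ℕ} (h : Val a b c s) :
    Val (a + c + 2 * s) (b + c + 2 * s) c (s + c) := by
  refine ⟨by have := h.pa; omega, by have := h.pb; omega, h.pc, ?_⟩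
  push_cast
  linear_combination h.her

/-- one step of the descent -/
def Desc (X Y : St) : Prop :=
  ∃ a b c s : ℕ, Val a b c s ∧ c < 2 * s ∧ 2 * s < a + c ∧ 2 * s < b + c ∧
    X = ({a, b, c}, s) ∧ Y = ({a + c - 2 * s, b + c - 2 * s, c}, df c s)

theorem core {a b c s : ℕ} (h : Val a b c s) (h1 : c < 2 * s) (h2 : 2 * s < a + c)
    (h3 : 2 * s < b + c) (h4 : 2 * s < a + b) (hac : a < c) :
    Desc ({a + c - 2 * s, b + c - 2 * s, c}, df c s) ({b + a - 2 * s, c + a - 2 * s, a}, df a s) := by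
  have hv := h.minus h2 h3
  have hd : df c s = c - s := by unfold df; omega
  refine ⟨b + c - 2 * s, c, a + c - 2 * s, df c s, hv.rot, ?_, ?_, ?_, ?_, ?_⟩
  · omega
  · omega
  · have := h.pa
    omega
  · rw [rot3' (b + c - 2 * s) c (a + c - 2 * s)]
  · have e1 : b + c - 2 * s + (a + c - 2 * s) - 2 * df c s = b + a - 2 * s := by omega
    have e2 : c + (a + c - 2 * s) - 2 * df c s = a := by omega
    have e3 : df (a + c - 2 * s) (df c s) = df a s := by
      rw [hd]
      unfold df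
      omega
    rw [e1, e2, e3, add_comm c a]
    congr 1
    simp only [Multiset.insert_eq_cons]
    congr 1
    exact Multiset.pair_comm _ _

theorem local_conf {X Y Z : St} (h : Desc X Y) (h' : Desc X Z) : Y = Z ∨ Desc Y Z ∨ Desc Z Y := by
  have key : ∀ a b c s : ℕ, Val a b c s → c < 2 * s → a < 2 * s → 2 * s < a + c → 2 * s < b + c →
      2 * s < a + b → ((({a + c - 2 * s, b + c - 2 * s, c}, df c s) : St) =
        ({b + a - 2 * s, c + a - 2 * s, a}, df a s)) ∨
      Desc ({a + c - 2 * s, b + c - 2 * s, c}, df c s) ({b + a - 2 * s, c + a - 2 * s, a}, df a s) ∨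
      Desc ({b + a - 2 * s, c + a - 2 * s, a}, df a s)
        ({a + c - 2 * s, b + c - 2 * s, c}, df c s) := by
    intro a b c s hv h1 h2 h3 h4 h5
    rcases lt_trichotomy a c with h6 | h6 | h6
    · exact Or.inr (Or.inl (core hv h1 h3 h4 h5 h6))
    · left
      subst h6
      rw [rot3]
    · right
      right
      have hv' : Val c b a s := hv.rot.swap
      have := core hv' h2 (by omega) (by omega) (by omega) h6
      rw [rot3 (b + a - 2 * s), rot3 (a + c - 2 * s)]
      convert! this using 3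
  obtain ⟨a, b, c, s, hv, h1, h2, h3, hX, rfl⟩ := h
  obtain ⟨a', b', c', s', hv', h1', h2', h3', hX', rfl⟩ := h'
  rw [hX] at hX'
  have hs : s = s' := congrArg Prod.snd hX'
  have hm : ({a, b, c} : Multiset ℕ) = {a', b', c'} := congrArg Prod.fst hX'
  subst hs
  have sw : ∀ x y z : ℕ, ({x, y, z} : Multiset ℕ) = {y, x, z} := fun x y z => rot3 x y z
  rcases ms3 hm with ⟨rfl, rfl, rfl⟩ | ⟨rfl, rfl, rfl⟩ | ⟨rfl, rfl, rfl⟩ | ⟨rfl, rfl, rfl⟩ |
    ⟨rfl, rfl, rfl⟩ | ⟨rfl, rfl, rfl⟩
  · exact Or.inl rfl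
  · -- a' = a, c' = b, b' = c
    have := key b a c s hv.swap h1 h1' (by omega) (by omega) (by omega)
    rw [sw (b + c - 2 * s)] at this
    rw [show c + b - 2 * s = c + b - 2 * s from rfl]
    exact this
  · left
    rw [sw]
  · -- a' = c, b' = a, c' = b
    have := key b a c s hv.swap h1 h1' (by omega) (by omega) (by omega)
    rw [sw (b + c - 2 * s), sw (a + b - 2 * s)] at this
    exact this
  · -- a' = b, b' = c, c' = a
    exact key a b c s hv h1 h1' (by omega) (by omega) (by omega)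
  · -- a' = c, b' = b, c' = a
    have := key a b c s hv h1 h1' (by omega) (by omega) (by omega)
    rw [sw (b + a - 2 * s)] at this
    exact this

end Pool.Agent.FleaC
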