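import Pool.Agent.FleaC.Conn

/-!
# The tree of the states above a root, and the number of the areas in it
-/

set_option autoImplicit false

namespace Pool.Agent.FleaC

open Relation

/-- the areas of the states above `a b c s` of height at most `n` -/
def vals : ℕ → ℕ → ℕ → ℕ → ℕ → Finset ℕ
  | 0, _, _, _, s => {s}
  | n + 1, a, b, c, s => insert s (vals n (a + c + 2 * s) (b + c + 2 * s) c (s + c) ∪
      (vals n (b + a + 2 * s) (c + a + 2 * s) a (s + a) ∪
        vals n (c + b + 2 * s) (a + b + 2 * s) b (s + b)))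

theorem vals_rot (n a b c s : ℕ) : vals n b c a s = vals n a b c s := by
  cases n with
  | zero => rfl
  | succ n =>
    change insert s (vals n (b + a + 2 * s) (c + a + 2 * s) a (s + a) ∪
      (vals n (c + b + 2 * s) (a + b + 2 * s) b (s + b) ∪
        vals n (a + c + 2 * s) (b + c + 2 * s) c (s + c))) = insert s _
    congr 1
    rw [← Finset.union_assoc, Finset.union_comm]

theorem vals_swap (n a b c s : ℕ) : vals n b a c s = vals n a b c s := by
  induction n generalizing a b c s with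
  | zero => rfl
  | succ n ih =>
    change insert s (vals n (b + c + 2 * s) (a + c + 2 * s) c (s + c) ∪
      (vals n (a + b + 2 * s) (c + b + 2 * s) b (s + b) ∪
        vals n (c + a + 2 * s) (b + a + 2 * s) a (s + a))) = insert s _
    rw [ih (a + c + 2 * s), ih (c + b + 2 * s), ih (b + a + 2 * s)]
    congr 2
    rw [Finset.union_comm]

theorem vals_ms {n a b c a' b' c' s : ℕ} (h : ({a, b, c} : Multiset ℕ) = {a', b', c'}) :
    vals n a b c s = vals n a' b' c' s := by
  rcases ms3 h with ⟨rfl, rfl, rfl⟩ | ⟨rfl, rfl, rfl⟩ | ⟨rfl, rfl, rfl⟩ | ⟨rfl, rfl, rfl⟩ |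
    ⟨rfl, rfl, rfl⟩ | ⟨rfl, rfl, rfl⟩
  · rfl
  · -- a' = a, b' = c, c' = b
    rw [← vals_rot n a b c, vals_swap n c b a, ← vals_rot n a c b]
  · exact vals_swap _ _ _ _ _
  · -- a' = c, b' = a, c' = b
    rw [← vals_rot n c a b]
  · -- a' = b, b' = c, c' = a
    rw [vals_rot, vals_rot]
  · -- a' = c, b' = b, c' = a
    rw [← vals_rot n c b a, vals_swap]

/-- one step up -/
def Up (X Y : St) : Prop :=
  ∃ a b c s : ℕ, Val a b c s ∧ X = ({a, b, c}, s) ∧ Y = ({a + c + 2 * s, b + c + 2 * s, c}, s + c)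

theorem Up.lt {X Y : St} (h : Up X Y) : X.2 < Y.2 := by
  obtain ⟨a, b, c, s, hv, rfl, rfl⟩ := h
  have := hv.pc
  change s < s + c
  omega

theorem mem_vals {X Y : St} (h : ReflTransGen Up X Y) :
    ∀ n a b c s : ℕ, X = ({a, b, c}, s) → Y.2 ≤ X.2 + n → Y.2 ∈ vals n a b c s := by
  induction h using ReflTransGen.head_induction_on with
  | refl =>
    intro n a b c s hX _
    have hs : Y.2 = s := by rw [hX]
    rw [hs]
    cases n with
    | zero => exact Finset.mem_singleton_self s
    | succ n => exact Finset.mem_insert_self _ _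
  | @head X Z h1 h2 ih =>
    intro n a b c s hX hn
    have hZY : Z.2 ≤ Y.2 := by
      clear ih hn hX h1
      induction h2 with
      | refl => exact le_rfl
      | tail _ h3 ih => exact ih.trans h3.lt.le
    have hXZ := h1.lt
    obtain ⟨a', b', c', s', hv, hX', hZ⟩ := h1
    rw [hX] at hX'
    have hs : s = s' := congrArg Prod.snd hX'
    subst hs
    have hm : ({a, b, c} : Multiset ℕ) = {a', b', c'} := congrArg Prod.fst hX'
    rw [vals_ms hm]
    obtain _ | n := n
    · omega
    · have := ih n _ _ _ _ hZ (by omega)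
      exact Finset.mem_insert_of_mem (Finset.mem_union_left _ this)

/-- the potential -/
noncomputable def pot (a b c s : ℕ) : ℝ := 6 / s * (1 / a + 1 / b + 1 / c)

theorem side_gain {s c u v : ℝ} (hs : 0 < s) (hc : 0 < c) (hu : 4 * s ≤ u) (hv : 4 * s ≤ v) :
    6 / (s + c) * (1 / u + 1 / v + 1 / c) + 3 / (s * (s + c)) ≤ 6 / s * (1 / c) := by
  have h1 : 1 / u ≤ 1 / (4 * s) := one_div_le_one_div_of_le (by positivity) hu
  have h2 : 1 / v ≤ 1 / (4 * s) := one_div_le_one_div_of_le (by positivity) hv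
  have h3 : 6 / (s + c) * (1 / u + 1 / v + 1 / c) ≤
      6 / (s + c) * (1 / (4 * s) + 1 / (4 * s) + 1 / c) :=
    mul_le_mul_of_nonneg_left (by linarith) (by positivity)
  have h4 : 6 / (s + c) * (1 / (4 * s) + 1 / (4 * s) + 1 / c) + 3 / (s * (s + c)) =
      6 / s * (1 / c) := by
    field_simp
    ring
  linarith

theorem two_s_le {a b c s : ℕ} (hv : Val a b c s) : 2 * s ≤ a + c := by
  have her := hv.her
  have h1 : (2 * (s : ℤ)) ^ 2 ≤ (a + c) ^ 2 := by
    nlinarith [sq_nonneg ((a : ℤ) + c - b), sq_nonneg ((a : ℤ) - c)]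
  have h2 := abs_le_of_sq_le_sq' h1 (by positivity)
  have h3 := h2.2
  exact_mod_cast h3

theorem pot_gain {a b c s : ℕ} (hv : Val a b c s) (hs : 1 ≤ s)
    (hm : a ≤ 2 * s ∨ b ≤ 2 * s ∨ c ≤ 2 * s) :
    1 / (s : ℝ) ^ 2 + (pot (a + c + 2 * s) (b + c + 2 * s) c (s + c) +
      (pot (b + a + 2 * s) (c + a + 2 * s) a (s + a) +
        pot (c + b + 2 * s) (a + b + 2 * s) b (s + b))) ≤ pot a b c s := by
  have pa : (0 : ℝ) < a := by exact_mod_cast hv.pa
  have pb : (0 : ℝ) < b := by exact_mod_cast hv.pb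
  have pc : (0 : ℝ) < c := by exact_mod_cast hv.pc
  have ps : (0 : ℝ) < s := by exact_mod_cast hs
  have k1 : (2 * s : ℝ) ≤ a + c := by exact_mod_cast two_s_le hv
  have k2 : (2 * s : ℝ) ≤ b + c := by exact_mod_cast two_s_le hv.swap
  have k3 : (2 * s : ℝ) ≤ b + a := by exact_mod_cast two_s_le hv.rot
  have g1 := side_gain (s := (s : ℝ)) (c := (c : ℝ)) (u := (a : ℝ) + c + 2 * s)
    (v := (b : ℝ) + c + 2 * s) ps pc (by linarith) (by linarith)
  have g2 := side_gain (s := (s : ℝ)) (c := (a : ℝ)) (u := (b : ℝ) + a + 2 * s)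
    (v := (c : ℝ) + a + 2 * s) ps pa (by linarith) (by linarith)
  have g3 := side_gain (s := (s : ℝ)) (c := (b : ℝ)) (u := (c : ℝ) + b + 2 * s)
    (v := (a : ℝ) + b + 2 * s) ps pb (by linarith) (by linarith)
  have key : ∀ x : ℝ, 0 < x → x ≤ 2 * s → 1 / (s : ℝ) ^ 2 ≤ 3 / (s * (s + x)) := by
    intro x hx hx2
    rw [div_le_div_iff₀ (by positivity) (by positivity)]
    nlinarith
  have q1 : 0 < 3 / ((s : ℝ) * (s + c)) := by positivity
  have q2 : 0 < 3 / ((s : ℝ) * (s + a)) := by positivity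
  have q3 : 0 < 3 / ((s : ℝ) * (s + b)) := by positivity
  have h1 : 1 / (s : ℝ) ^ 2 ≤ 3 / (s * (s + c)) + 3 / (s * (s + a)) + 3 / (s * (s + b)) := by
    rcases hm with h | h | h
    · have := key a pa (by exact_mod_cast h)
      linarith
    · have := key b pb (by exact_mod_cast h)
      linarith
    · have := key c pc (by exact_mod_cast h)
      linarith
  unfold pot
  push_cast
  have e : 6 / (s : ℝ) * (1 / a + 1 / b + 1 / c) =
      6 / (s : ℝ) * (1 / c) + 6 / (s : ℝ) * (1 / a) + 6 / (s : ℝ) * (1 / b) := by ring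
  rw [e]
  linarith

theorem card_vals {n a b c s S : ℕ} (hv : Val a b c s) (hs : 1 ≤ s)
    (hm : a ≤ 2 * s ∨ b ≤ 2 * s ∨ c ≤ 2 * s) :
    (((vals n a b c s).filter (· ≤ S)).card : ℝ) ≤ (S : ℝ) ^ 2 * pot a b c s := by
  induction n generalizing a b c s with
  | zero =>
    have g := pot_gain hv hs hm
    have ps : (0 : ℝ) < s := by exact_mod_cast hs
    have hnn : ∀ x y z w : ℕ, 0 ≤ pot x y z w := fun x y z w => by unfold pot; positivity
    change ((({s} : Finset ℕ).filter (· ≤ S)).card : ℝ) ≤ _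
    by_cases h : s ≤ S
    · rw [Finset.filter_singleton, if_pos h, Finset.card_singleton]
      have h1 : 1 / (s : ℝ) ^ 2 ≤ pot a b c s := by
        have := hnn (a + c + 2 * s) (b + c + 2 * s) c (s + c)
        have := hnn (b + a + 2 * s) (c + a + 2 * s) a (s + a)
        have := hnn (c + b + 2 * s) (a + b + 2 * s) b (s + b)
        linarith
      have h2 : (s : ℝ) ^ 2 ≤ (S : ℝ) ^ 2 := pow_le_pow_left₀ ps.le (by exact_mod_cast h) 2
      have h3 : (1 : ℝ) = (s : ℝ) ^ 2 * (1 / (s : ℝ) ^ 2) := by field_simp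
      push_cast
      calc (1 : ℝ) = (s : ℝ) ^ 2 * (1 / (s : ℝ) ^ 2) := h3
        _ ≤ (S : ℝ) ^ 2 * pot a b c s := mul_le_mul h2 h1 (by positivity) (by positivity)
    · rw [Finset.filter_singleton, if_neg h, Finset.card_empty]
      have := hnn a b c s
      push_cast
      positivity
  | succ n ih =>
    have g := pot_gain hv hs hm
    have ps : (0 : ℝ) < s := by exact_mod_cast hs
    have i1 := ih hv.plus (by omega) (Or.inr (Or.inr (by omega)))
    have i2 := ih hv.rot.plus (by omega) (Or.inr (Or.inr (by omega)))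
    have i3 := ih hv.rot.rot.plus (by omega) (Or.inr (Or.inr (by omega)))
    have hS : (0 : ℝ) ≤ (S : ℝ) ^ 2 := by positivity
    have h0 : ((({s} : Finset ℕ).filter (· ≤ S)).card : ℝ) ≤ (S : ℝ) ^ 2 * (1 / (s : ℝ) ^ 2) := by
      by_cases h : s ≤ S
      · rw [Finset.filter_singleton, if_pos h, Finset.card_singleton]
        have h2 : (s : ℝ) ^ 2 ≤ (S : ℝ) ^ 2 := pow_le_pow_left₀ ps.le (by exact_mod_cast h) 2
        push_cast
        rw [mul_one_div, le_div_iff₀ (by positivity)]
        linarith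
      · rw [Finset.filter_singleton, if_neg h, Finset.card_empty]
        push_cast
        positivity
    have e : (vals (n + 1) a b c s).filter (· ≤ S) =
        ({s} : Finset ℕ).filter (· ≤ S) ∪
        ((vals n (a + c + 2 * s) (b + c + 2 * s) c (s + c)).filter (· ≤ S) ∪
        ((vals n (b + a + 2 * s) (c + a + 2 * s) a (s + a)).filter (· ≤ S) ∪
        (vals n (c + b + 2 * s) (a + b + 2 * s) b (s + b)).filter (· ≤ S))) := by
      rw [← Finset.filter_union, ← Finset.filter_union, ← Finset.filter_union]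
      rfl
    have hc : ((vals (n + 1) a b c s).filter (· ≤ S)).card ≤
        (({s} : Finset ℕ).filter (· ≤ S)).card +
        (((vals n (a + c + 2 * s) (b + c + 2 * s) c (s + c)).filter (· ≤ S)).card +
        (((vals n (b + a + 2 * s) (c + a + 2 * s) a (s + a)).filter (· ≤ S)).card +
        ((vals n (c + b + 2 * s) (a + b + 2 * s) b (s + b)).filter (· ≤ S)).card)) := by
      rw [e]
      refine (Finset.card_union_le _ _).trans (Nat.add_le_add_left ?_ _)
      refine (Finset.card_union_le _ _).trans (Nat.add_le_add_left ?_ _)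
      exact Finset.card_union_le _ _
    have hc' : (((vals (n + 1) a b c s).filter (· ≤ S)).card : ℝ) ≤
        ((({s} : Finset ℕ).filter (· ≤ S)).card : ℝ) +
        ((((vals n (a + c + 2 * s) (b + c + 2 * s) c (s + c)).filter (· ≤ S)).card : ℝ) +
        ((((vals n (b + a + 2 * s) (c + a + 2 * s) a (s + a)).filter (· ≤ S)).card : ℝ) +
        (((vals n (c + b + 2 * s) (a + b + 2 * s) b (s + b)).filter (· ≤ S)).card : ℝ))) := by
      exact_mod_cast hc
    have g' := mul_le_mul_of_nonneg_left g hS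
    rw [mul_add, mul_add, mul_add] at g'
    linarith

end Pool.Agent.FleaC
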